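import Mathlib
import Pool.Agent.Lib.Pf72953.Defs
import Pool.Agent.Lib.Pf72953f.Defs
import Pool.Agent.Lib.Pf72953f.DDefs
import Pool.Agent.Lib.Pf72953m.Defs
import Pool.Agent.Lib.Pf72953w.Defs

/-!
Iitaka's inequality and its parts, by the dimensions of base, fibre and total space: definitions.

`k` is a field of characteristic zero; `K` runs through the finitely generated extensions of `k` and `W ⊆ G` through the function
fields over `K` of fibrations of geometrically irreducible varieties over `K` (`K` and `W` are algebraically closed in `G`), with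
`dim W ≤ b`, `dim (G/W) ≤ d` and `dim G ≤ n`.
-/

set_option autoImplicit false

open scoped WithZero
open Pf72953 Pf72953.Fib Pf72953.Mov

namespace Pf72953.Red

universe u

/-- for some `r ≥ 2` and some `m ≥ 1`, `0 ≤ n < (r - 1) m` the divisor `m K_L + n K_B` has a nonzero section, `L` the function field
of the `r`-th fibre power of `E/B` (for instance `κ(L) ≥ 0`, `n = 0`) -/
def FibrePowerForm (k B E : Type u) [Field k] [Field B] [Field E] [Algebra k B]
    [Algebra B E] : Prop :=
  ∃ (r : ℕ) (L : Type u) (_ : Field L) (_ : Algebra k L) (_ : Algebra B L)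
    (_ : IsScalarTower k B L) (i : Fin r → E →ₐ[B] L), 2 ≤ r ∧ IsFibrePower B E L i ∧
      TwKodairaGE k B L (r - 1) 0

/-- Iitaka's inequality for the fibration `E/B` over `k` -/
def IitakaIneq (k B E : Type*) [Field k] [Field B] [Field E] [Algebra k B] [Algebra k E]
    [Algebra B E] : Prop :=
  kodairaDim k B + kodairaDim B E ≤ kodairaDim k E

/-- the nonvanishing part of Iitaka's inequality for the fibration `E/B` over `k` -/
def NonvanFor (k B E : Type*) [Field k] [Field B] [Field E] [Algebra k B] [Algebra k E]
    [Algebra B E] : Prop :=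
  kodairaDim k B ≠ ⊥ → kodairaDim B E ≠ ⊥ → kodairaDim k E ≠ ⊥

/-- `Z` is the field of an Iitaka fibration of `E/k`: `dim Z = κ(E)` and `κ(E/Z) = 0` -/
def IsIitakaField {k E : Type*} [Field k] [Field E] [Algebra k E] (Z : IntermediateField k E) :
    Prop :=
  ((dimension k Z : ℕ∞) : WithBot ℕ∞) = kodairaDim k E ∧ kodairaDim Z E = 0

/-- base of dimension at most `b`, fibres of dimension at most `d`, total space of dimension at most `n` -/
def DimLE (K W G : Type*) [Field K] [Field W] [Field G] [Algebra K W] [Algebra K G] [Algebra W G]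
    (b d n : ℕ) : Prop :=
  dimension K W ≤ b ∧ dimension W G ≤ d ∧ dimension K G ≤ n

/-- Iitaka's inequality -/
def Iitaka (k : Type u) [Field k] (b d n : ℕ) : Prop :=
  ∀ (K W G : Type u) [Field K] [Field W] [Field G] [Algebra k K] [Algebra K W] [Algebra K G]
    [Algebra W G] [IsScalarTower K W G] [Algebra.EssFiniteType k K] [Algebra.EssFiniteType K G],
    ClosedIn K G → ClosedIn W G → DimLE K W G b d n → IitakaIneq K W G

/-- the weak form of Iitaka's inequality: if `κ(W/K) ≥ 0` then `κ(G/K) ≥ min(κ(G/W), 1)` -/
def WeakIitaka (k : Type u) [Field k] (b d n : ℕ) : Prop :=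
  ∀ (K W G : Type u) [Field K] [Field W] [Field G] [Algebra k K] [Algebra K W] [Algebra K G]
    [Algebra W G] [IsScalarTower K W G] [Algebra.EssFiniteType k K] [Algebra.EssFiniteType K G],
    ClosedIn K G → ClosedIn W G → DimLE K W G b d n →
    kodairaDim K W ≠ ⊥ → min (kodairaDim W G) 1 ≤ kodairaDim K G

/-- Iitaka's inequality for total spaces of Kodaira dimension zero -/
def IitakaZero (k : Type u) [Field k] (b d n : ℕ) : Prop :=
  ∀ (K W G : Type u) [Field K] [Field W] [Field G] [Algebra k K] [Algebra K W] [Algebra K G]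
    [Algebra W G] [IsScalarTower K W G] [Algebra.EssFiniteType k K] [Algebra.EssFiniteType K G],
    ClosedIn K G → ClosedIn W G → DimLE K W G b d n → kodairaDim K G = 0 → IitakaIneq K W G

/-- the nonvanishing part: if `κ(W/K) ≥ 0` and `κ(G/W) ≥ 0` then `κ(G/K) ≥ 0` -/
def Nonvan (k : Type u) [Field k] (b d n : ℕ) : Prop :=
  ∀ (K W G : Type u) [Field K] [Field W] [Field G] [Algebra k K] [Algebra K W] [Algebra K G]
    [Algebra W G] [IsScalarTower K W G] [Algebra.EssFiniteType k K] [Algebra.EssFiniteType K G],
    ClosedIn K G → ClosedIn W G → DimLE K W G b d n → NonvanFor K W G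

/-- the part on the fibres: if `κ(G/K) = 0` and `κ(W/K) ≥ 0` then `κ(G/W) ≤ 0` -/
def FibreZero (k : Type u) [Field k] (b d n : ℕ) : Prop :=
  ∀ (K W G : Type u) [Field K] [Field W] [Field G] [Algebra k K] [Algebra K W] [Algebra K G]
    [Algebra W G] [IsScalarTower K W G] [Algebra.EssFiniteType k K] [Algebra.EssFiniteType K G],
    ClosedIn K G → ClosedIn W G → DimLE K W G b d n →
    kodairaDim K G = 0 → kodairaDim K W ≠ ⊥ → kodairaDim W G ≤ 0

/-- nonvanishing on the fibre powers, up to a bounded multiple of `K_W`, if `κ(G/W) = 0` and `κ(W/K) ≥ 0` -/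
def PowerNonvan (k : Type u) [Field k] (b d n : ℕ) : Prop :=
  ∀ (K W G : Type u) [Field K] [Field W] [Field G] [Algebra k K] [Algebra K W] [Algebra K G]
    [Algebra W G] [IsScalarTower K W G] [Algebra.EssFiniteType k K] [Algebra.EssFiniteType K G],
    ClosedIn K G → ClosedIn W G → DimLE K W G b d n →
    kodairaDim W G = 0 → kodairaDim K W ≠ ⊥ → FibrePowerForm K W G

/-- the nonvanishing conjecture: a variety of dimension at most `n` which is not uniruled has `κ ≥ 0` -/
def NonvanConj (k : Type u) [Field k] (n : ℕ) : Prop :=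
  ∀ (K X : Type u) [Field K] [Field X] [Algebra k K] [Algebra K X] [Algebra.EssFiniteType k K]
    [Algebra.EssFiniteType K X], ClosedIn K X → dimension K X ≤ n → ¬ Uniruled K X →
    kodairaDim K X ≠ ⊥

/-- resolution of singularities (Hironaka): the varieties over the finitely generated extensions of `k` have smooth complete models -/
def Resolution (k : Type u) [Field k] : Prop :=
  ∀ (K X : Type u) [Field K] [Field X] [Algebra k K] [Algebra K X] [Algebra.EssFiniteType k K]
    [Algebra.EssFiniteType K X], Nonempty (SmoothModel K X)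

end Pf72953.Red
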