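import Mathlib
import Pool.Agent.Lib.Pf72953.Core
import Pool.Agent.Lib.Pf72953u.Main
import Pool.Agent.Lib.Pf72953u.Inst

/-!
MODULE Pf72953r.Up: the Kodaira dimension does not drop under extension of the field of constants and generically finite covers:
`k ⊆ B`, `k ⊆ κ ⊆ W`, `B ⊆ W`, and some transcendence basis of `B/k` is a transcendence basis of `W/κ`.

PROOF.  `WReg.up`: let `w` be divisorial on `W/κ` and `c` a regular basis over `κ`.  `w` is divisorial over `k`
(`Pf72953.Up.IsDivisorial.under`).
(a) `w` trivial on `B`: `w f ≤ 1`, and `w (jac c x) ≤ 1` by `RegBasis.jac_le` (`w (x i) ≤ 1`).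
(b) otherwise `u = w.comap (algebraMap B W)` is divisorial over `k` (`IsDivisorial.restrict`); take a regular basis `c_B` of `u`
(`WReg.reg_bound` or `IsDivisorial.exists_adapted` and `Adapted.regBasis`); `hf` gives `u f * u (jac c_B x) ^ m ≤ 1`.
`c_B` (in `W`) is a transcendence basis of `W/κ`: it is one of `B/k`, so each `x_i` is algebraic over `k(c_B)`, and `κ(x) ⊆ W` is
algebraic; same number of elements (`isTranscendenceBasis_of_card`; or a lemma of Mathlib on `IsTranscendenceBasis` and
algebraic extensions; `isAlgebraic_transport` in Pf72953.Core).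
`jac c x = jac c c_B * jac_κ c_B x` (`jac_chain`), `jac_κ c_B x` is the image of `jac c_B x` (`Pf72953.Up.jac_base`),
and `w (jac c c_B) ≤ 1` (`RegBasis.jac_le`, `RegBasis.le_one`).

`indep_up`: extend `f` to a transcendence basis of `B/k` (`exists_extend` in Pf72953.Orb or Mathlib), which is one of `W/κ` as before,
so `f` is algebraically independent over `κ`.
`kodairaDim_up`: `kodairaDim_eq`, `KodairaGE.exists_coord` for `x`, `WReg.up`, `WReg.reindex` and `KodairaGE.of_coord`
(`dimension k B = dimension κ W` by `card_eq_of_isTranscendenceBasis`).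
-/

set_option autoImplicit false
set_option linter.style.haveILetI false
set_option linter.unusedSectionVars false

open scoped WithZero
open Pf72953

namespace Pf72953.Red

/-- algebraicity over the field generated by a transcendence basis, with larger constants -/
private theorem up_transport {k κ F L ι : Type*} [Field k] [Field κ] [Field F] [Field L]
    [Algebra k κ] [Algebra k F] [Algebra k L] [Algebra κ L] [Algebra F L] [IsScalarTower k F L]
    [IsScalarTower k κ L] {x : ι → F}
    (hx : IsTranscendenceBasis k x) (t : Set L) (ht : ∀ i, algebraMap F L (x i) ∈ t) (b : F) :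
    IsAlgebraic (Algebra.adjoin κ t) (algebraMap F L b) := by
  have h1 : IsAlgebraic (Algebra.adjoin k (Set.range x)) b := hx.isAlgebraic.isAlgebraic b
  have h2 : Algebra.adjoin k (Set.range x) ≤
      ((Algebra.adjoin κ t).restrictScalars k).comap (IsScalarTower.toAlgHom k F L) := by
    rw [Algebra.adjoin_le_iff]
    rintro _ ⟨i, rfl⟩
    exact Algebra.subset_adjoin (R := κ) (ht i)
  let φ : Algebra.adjoin k (Set.range x) →+* Algebra.adjoin κ t :=
    ((algebraMap F L).comp (Algebra.adjoin k (Set.range x)).val.toRingHom).codRestrict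
      (Algebra.adjoin κ t).toSubring (fun a => h2 a.2)
  letI : Algebra (Algebra.adjoin k (Set.range x)) (Algebra.adjoin κ t) := φ.toAlgebra
  haveI : IsScalarTower (Algebra.adjoin k (Set.range x)) (Algebra.adjoin κ t) L :=
    IsScalarTower.of_algebraMap_eq fun a => rfl
  have h3 : IsAlgebraic (Algebra.adjoin k (Set.range x)) (algebraMap F L b) := h1.algebraMap
  refine h3.extendScalars ?_
  intro a b hab
  have h4 := congrArg (fun c : Algebra.adjoin κ t => (c : L)) hab
  exact Subtype.ext ((algebraMap F L).injective h4)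

section

variable {k κ B W : Type*} [Field k] [CharZero k] [Field κ] [CharZero κ] [Field B] [Field W]
  [Algebra k κ] [Algebra k B] [Algebra k W] [Algebra κ W] [Algebra B W] [IsScalarTower k κ W]
  [IsScalarTower k B W]

/-- a transcendence basis of `B/k` is one of `W/κ` if this holds for one of them -/
theorem tb_up [FinTrdeg k B] {ι ι' : Type*} [Finite ι] [Finite ι'] {x : ι → B}
    (hx : IsTranscendenceBasis k x)
    (hxW : IsTranscendenceBasis κ (fun i => algebraMap B W (x i))) {y : ι' → B}
    (hy : IsTranscendenceBasis k y) : IsTranscendenceBasis κ (fun i => algebraMap B W (y i)) := by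
  haveI := Fintype.ofFinite ι
  haveI := Fintype.ofFinite ι'
  set s : ι' → W := fun i => algebraMap B W (y i) with hs
  haveI : Algebra.IsAlgebraic (Algebra.adjoin κ (Set.range s)) W := by
    refine ⟨fun a => (hxW.isAlgebraic.isAlgebraic a).adjoin_of_forall_isAlgebraic ?_⟩
    rintro _ ⟨⟨i, rfl⟩, _⟩
    exact up_transport hy (Set.range s) (fun j => ⟨j, rfl⟩) (x i)
  refine Algebra.IsAlgebraic.isTranscendenceBasis_of_lift_le_trdeg_of_finite κ s ?_
  haveI : FinTrdeg κ W := FinTrdeg.of_isTranscendenceBasis hxW
  have h2 : Fintype.card ι' = dimension κ W := by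
    rw [← card_eq_of_isTranscendenceBasis hxW, card_eq_of_isTranscendenceBasis hx,
      card_eq_of_isTranscendenceBasis hy]
  rw [← trdeg_eq_dimension, Cardinal.mk_fintype, h2]
  simp

theorem indep_up [FinTrdeg k B] {ι : Type*} [Finite ι] {x : ι → B}
    (hx : IsTranscendenceBasis k x)
    (hxW : IsTranscendenceBasis κ (fun i => algebraMap B W (x i))) {c : ℕ} {f : Fin c → B}
    (hf : AlgebraicIndependent k f) :
    AlgebraicIndependent κ (fun i => algebraMap B W (f i)) := by
  obtain ⟨s, hs, hs'⟩ := exists_isTranscendenceBasis_superset (R := k) (s := Set.range f)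
    hf.to_subtype_range
  haveI := finite_of_isTranscendenceBasis hs'
  have h1 := (tb_up hx hxW hs').1
  have h2 := h1.comp (fun i : Fin c => (⟨f i, hs ⟨i, rfl⟩⟩ : s))
    (fun i j hij => hf.injective (congrArg Subtype.val hij))
  exact h2

theorem WReg.up [Algebra.EssFiniteType k B] [Algebra.EssFiniteType k W] {ι : Type*} [Fintype ι]
    [DecidableEq ι] {x : ι → B} (hx : IsTranscendenceBasis k x)
    (hxW : IsTranscendenceBasis κ (fun i => algebraMap B W (x i))) {m : ℕ} {f : B}
    (hf : f ∈ WReg k x m) : algebraMap B W f ∈ WReg κ (fun i => algebraMap B W (x i)) m := by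
  intro w hw c hc
  by_cases hnt : ∃ a : B, a ≠ 0 ∧ w (algebraMap B W a) ≠ 1
  · have hw' : IsDivisorial k W w := Pf72953.Up.IsDivisorial.under (k := k) hw
    have hB : IsDivisorial k B (w.comap (algebraMap B W)) := hw'.restrict hnt
    obtain ⟨cB, hcB, hb⟩ := WReg.reg_bound hx hf hB
    have hcW : IsTranscendenceBasis κ (fun i => algebraMap B W (cB i)) := tb_up hx hxW hcB.tb
    have h1 := jac_chain hcW hc.tb (fun i => algebraMap B W (x i))
    rw [Pf72953.Up.jac_base hcB.tb hcW x] at h1
    have h2 : w (jac hc.tb (fun i => algebraMap B W (cB i))) ≤ 1 :=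
      hc.jac_le _ (fun i => hcB.le_one i)
    rw [h1, map_mul, mul_pow, mul_left_comm]
    exact mul_le_one' (pow_le_one' h2 m) hb
  · have htriv : ∀ a : B, w (algebraMap B W a) ≤ 1 := by
      intro a
      by_cases h0 : a = 0
      · rw [h0, map_zero, map_zero]
        exact zero_le_one
      · by_contra h
        exact hnt ⟨a, h0, fun h' => h (le_of_eq h')⟩
    have h2 : w (jac hc.tb (fun i => algebraMap B W (x i))) ≤ 1 :=
      hc.jac_le _ (fun i => htriv _)
    exact mul_le_one' (htriv f) (pow_le_one' h2 m)

end

/-- constants may be extended -/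
theorem kodairaDim_up (k κ B W : Type*) [Field k] [CharZero k] [Field κ] [Field B] [Field W]
    [Algebra k κ] [Algebra k B] [Algebra k W] [Algebra κ W] [Algebra B W] [IsScalarTower k κ W]
    [IsScalarTower k B W] [Algebra.EssFiniteType k B] [Algebra.EssFiniteType k W]
    {ι : Type*} [Finite ι] {x : ι → B} (hx : IsTranscendenceBasis k x)
    (hxW : IsTranscendenceBasis κ (fun i => algebraMap B W (x i))) :
    kodairaDim k B ≤ kodairaDim κ W := by
  classical
  haveI : CharZero κ := charZero_of_injective_algebraMap (algebraMap k κ).injective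
  haveI := Fintype.ofFinite ι
  haveI : Algebra.EssFiniteType κ W := Algebra.EssFiniteType.of_comp k κ W
  refine iSup₂_le fun c hc => ?_
  have hcard : Fintype.card ι = dimension k B := card_eq_of_isTranscendenceBasis hx
  let e : Fin (dimension k B) ≃ ι := (Fintype.equivFinOfCardEq hcard).symm
  have hz : IsTranscendenceBasis k (x ∘ e) := (isTranscendenceBasis_equiv e).mpr hx
  have hzW : IsTranscendenceBasis κ (fun i => algebraMap B W ((x ∘ e) i)) :=
    tb_up hx hxW hz
  have hdim : dimension κ W = dimension k B := by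
    rw [← card_eq_of_isTranscendenceBasis hzW, Fintype.card_fin]
  obtain ⟨m, hm, f₀, hf₀, hne, f, hf, hff⟩ := hc.exists_coord hz
  let e' : Fin (dimension κ W) ≃ Fin (dimension k B) := finCongr hdim
  have hzW' : IsTranscendenceBasis κ ((fun i => algebraMap B W ((x ∘ e) i)) ∘ e') :=
    (isTranscendenceBasis_equiv e').mpr hzW
  have hge : KodairaGE κ W c := by
    refine KodairaGE.of_coord hzW' hm (WReg.reindex (WReg.up hz hzW hf₀) e') ?_
      (indep_up hx hxW hf) (fun i => ?_)
    · rw [Ne, map_eq_zero]
      exact hne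
    · have h1 := WReg.reindex (WReg.up hz hzW (hff i)) e'
      rwa [map_mul] at h1
  exact le_iSup₂ (f := fun (c : ℕ) (_ : KodairaGE κ W c) => ((c : ℕ∞) : WithBot ℕ∞)) c hge

end Pf72953.Red
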