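import Mathlib

/-!
MODULE Pf72953r.SubFG: a subfield of a finitely generated field extension is finitely generated.

`k ⊆ K ⊆ L`, `L/k` finitely generated. PROOF.  `L/k` has finite transcendence degree (`FinTrdeg`), so `K/k` and `L/K` have finite
transcendence bases `x : Fin r → K` of `K/k` and `s : Fin d → L` of `L/K` (`exists_isTranscendenceBasis`,
`finite_of_isTranscendenceBasis`; `FinTrdeg` of `K/k`: compare `FinTrdeg.trans` or `Cardinal`, `lift_trdeg_add_eq`).
Let `F₀ = k(x) ⊆ K`, `F₁ = k(x, s) ⊆ L` (`(x, s)` is a transcendence basis of `L/k`,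
`IsTranscendenceBasis.sumElim_comp`), so `L/F₁` is finite (compare `finiteDimensional_adjoin_of_tb` in Pf72953.Adapted).
If `a_1, ..., a_n ∈ K` are linearly independent over `F₀` then their images in `L` are linearly independent over `F₁`: a relation
`∑ a_i p_i(s) = 0` with coefficients in `F₁ = F₀(s)` gives, after clearing denominators, one with `p_i ∈ F₀[S]`; as `s` is
algebraically independent over `K` the polynomial `∑ a_i p_i ∈ K[S]` is zero, hence `∑ a_i p_{iβ} = 0` for all coefficients and
`p_{iβ} = 0`.  So `[K : F₀] ≤ [L : F₁] < ∞` and `K = F₀(finitely many elements)` is finitely generated over `k`.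
(Any other proof is welcome; Mathlib may have linear disjointness results for algebraically independent families.)
-/

set_option autoImplicit false

open scoped TensorProduct

namespace SubFGAux

variable {k L : Type*} [Field k] [Field L] [Algebra k L]

/-- `x ⊗ 1 - 1 ⊗ x` in `L ⊗ L`. -/
noncomputable def del (k : Type*) {L : Type*} [Field k] [Field L] [Algebra k L] (x : L) :
    L ⊗[k] L := x ⊗ₜ[k] (1 : L) - (1 : L) ⊗ₜ[k] x

theorem mem_of_tmul_eq (E : IntermediateField k L) (x : L)
    (h : x ⊗ₜ[E] (1 : L) = (1 : L) ⊗ₜ[E] x) : x ∈ E := by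
  obtain ⟨g, hg⟩ := LinearMap.exists_leftInverse_of_injective (Algebra.linearMap E L)
    (LinearMap.ker_eq_bot_of_injective (algebraMap E L).injective)
  have h1 : g 1 = 1 := by
    have := LinearMap.congr_fun hg 1
    simpa using this
  have h2 := congrArg (fun z => TensorProduct.lid E L (TensorProduct.map g LinearMap.id z)) h
  simp only [TensorProduct.map_tmul, LinearMap.id_coe, id_eq, TensorProduct.lid_tmul, h1,
    one_smul] at h2
  rw [← h2]
  have h3 : g x • (1 : L) = ((g x : E) : L) := by
    rw [Algebra.smul_def, mul_one]; rfl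
  rw [h3]
  exact (g x).2

theorem mem_of_del_mem (E : IntermediateField k L) (x : L)
    (h : del k x ∈ Ideal.span (del k '' (E : Set L))) : x ∈ E := by
  apply mem_of_tmul_eq E x
  let f : L ⊗[k] L →ₐ[k] L ⊗[E] L := Algebra.TensorProduct.mapOfCompatibleSMul E k k L L
  have hf : ∀ y : L, f (del k y) = y ⊗ₜ[E] (1 : L) - (1 : L) ⊗ₜ[E] y := by
    intro y
    simp [f, del]
  have hle : Ideal.span (del k '' (E : Set L)) ≤ RingHom.ker f := by
    rw [Ideal.span_le]
    rintro _ ⟨y, hy, rfl⟩
    rw [SetLike.mem_coe, RingHom.mem_ker, hf]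
    have : y ⊗ₜ[E] (1 : L) = (1 : L) ⊗ₜ[E] y := by
      have h1 := TensorProduct.smul_tmul (R := E) (⟨y, hy⟩ : E) (1 : L) (1 : L)
      have h2 : ((⟨y, hy⟩ : E) • (1 : L)) = y := by
        rw [Algebra.smul_def, mul_one]; rfl
      rwa [h2] at h1
    rw [this, sub_self]
  have h1 := hle h
  rw [RingHom.mem_ker, hf] at h1
  exact sub_eq_zero.1 h1

theorem fg [Algebra.EssFiniteType k L] (K : IntermediateField k L) : K.FG := by
  classical
  haveI : IsNoetherianRing (L ⊗[k] L) :=
    Algebra.EssFiniteType.isNoetherianRing L (L ⊗[k] L)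
  have h1 : (Ideal.span (del k '' (K : Set L))).FG := IsNoetherian.noetherian _
  obtain ⟨t, ht, hspan⟩ := (Submodule.fg_span_iff_fg_span_finset_subset _).1 h1
  obtain ⟨s, hs, hst⟩ := Finset.subset_set_image_iff.1 ht
  refine ⟨s, le_antisymm (IntermediateField.adjoin_le_iff.2 hs) ?_⟩
  intro x hx
  apply mem_of_del_mem
  have h2 : del k x ∈ Ideal.span (del k '' (K : Set L)) := Ideal.subset_span ⟨x, hx, rfl⟩
  have h3 : Ideal.span (del k '' (K : Set L)) = Ideal.span (t : Set (L ⊗[k] L)) := hspan
  rw [h3] at h2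
  refine Ideal.span_mono ?_ h2
  rw [← hst, Finset.coe_image]
  exact Set.image_mono (IntermediateField.subset_adjoin k _)

end SubFGAux

namespace Pf72953.Red

theorem essFiniteType_sub (k K L : Type*) [Field k] [Field K] [Field L] [Algebra k K] [Algebra k L]
    [Algebra K L] [IsScalarTower k K L] [Algebra.EssFiniteType k L] :
    Algebra.EssFiniteType k K := by
  have h := SubFGAux.fg (IsScalarTower.toAlgHom k K L).fieldRange
  rw [← IntermediateField.essFiniteType_iff] at h
  exact (Algebra.EssFiniteType.iff_of_algEquiv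
    (AlgEquiv.ofInjectiveField (IsScalarTower.toAlgHom k K L))).2 h

end Pf72953.Red
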