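import Mathlib
import Pool.Agent.Lib.Pf72953.Core
import Pool.Agent.Lib.Pf72953f.Rel
import Pool.Agent.Lib.Pf72953f.RelW
import Pool.Agent.Lib.Pf72953f.Res

/-!
MODULE Pf72953r.Easy: easy addition, `κ(L/k) ≤ trdeg(K/k) + κ(L/K)` for `k ⊆ K ⊆ L`.

PROOF.  `exists_indep_over`: let `S ⊆ Fin c` be maximal with `(f_i)_{i ∈ S}` algebraically independent over `K`; every `f_i` is then
algebraic over `K(f_S)`, so `c ≤ trdeg_k(algebraic closure of K(f_S)) = dimension k K + |S|` (or use
`AlgebraicIndependent.matroid`, as in `exists_indep_in_set` of Pf72953.Count: extend a transcendence basis `x` of `K/k` by elements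
of `range f` to a basis of `range x ∪ range f`; it has at least `c` elements, at most `dimension k K` of them are from `x`, and the
others are algebraically independent over `k(x)`, hence over the algebraic extension `K` of `k(x)`; compare
`Pf72953.Fib.indep_over` in Pf72953f.Res).

`KodairaGE.over`: `x` a transcendence basis of `K/k` (finite: `FinTrdeg`), `s : Fin (dimension K L) → L` one of `L/K`,
`z = Sum.elim x s` reindexed by `Fin (dimension k L)` is one of `L/k` (`Fib.tb_rel`, `Fib.dim_add`).
`KodairaGE.exists_coord` gives `f₀ ≠ 0` and `f_i f₀` in `WReg k z m`; `WReg.reindex` and `Fib.WReg_rel` put them into `WReg K s m`;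
choose the `f_i` by `exists_indep_over` and conclude by `KodairaGE.of_coord`.

`easy_addition`: `kodairaDim_eq` and the definition of `kodairaDim` as a supremum (compare the proofs in
Pf72953f.KodZero: `le_kodairaDim`).
-/

set_option autoImplicit false

open scoped WithZero
open Pf72953

namespace Pf72953.Red

section

variable {k K L : Type*} [Field k] [Field K] [Field L] [Algebra k K] [Algebra k L] [Algebra K L]
  [IsScalarTower k K L]

theorem exists_indep_over [FinTrdeg k L] {c : ℕ} {f : Fin c → L}
    (hf : AlgebraicIndependent k f) :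
    ∃ e : Fin (c - dimension k K) → Fin c, Function.Injective e ∧
      AlgebraicIndependent K (fun i => f (e i)) := by
  classical
  have hfin : Algebra.trdeg k L < Cardinal.aleph0 := trdeg_lt_aleph0 k L
  have hsum := lift_trdeg_add_eq k K L
  obtain ⟨n, hn⟩ := Cardinal.lt_aleph0.mp hfin
  rw [hn, Cardinal.lift_natCast] at hsum
  have hfin2 := hsum.trans_lt (Cardinal.natCast_lt_aleph0 (n := n))
  rw [Cardinal.add_lt_aleph0_iff, Cardinal.lift_lt_aleph0, Cardinal.lift_lt_aleph0] at hfin2
  haveI : FinTrdeg k K := FinTrdeg.of_trdeg hfin2.1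
  obtain ⟨x, hx0⟩ := exists_algebraicIndependent_of_le_trdeg (k := k) (K := K)
    (n := dimension k K) trdeg_eq_dimension.le
  have hx : IsTranscendenceBasis k x := isTranscendenceBasis_of_card (Fintype.card_fin _) hx0
  have hx'i : AlgebraicIndependent k (fun i => algebraMap K L (x i)) :=
    hx0.map' (f := IsScalarTower.toAlgHom k K L) (algebraMap K L).injective
  have h1 : (AlgebraicIndependent.matroid k L).Indep
      (Set.range (fun i => algebraMap K L (x i))) := by
    rw [AlgebraicIndependent.matroid_indep_iff]
    exact hx'i.to_subtype_range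
  have h1f : (AlgebraicIndependent.matroid k L).Indep (Set.range f) := by
    rw [AlgebraicIndependent.matroid_indep_iff]
    exact hf.to_subtype_range
  obtain ⟨J, hJ, hXJ⟩ := h1.subset_isBasis_of_subset
    (Set.subset_union_left : _ ⊆ Set.range (fun i => algebraMap K L (x i)) ∪ Set.range f)
  have h2 : (Set.range f).encard ≤ J.encard := by
    rw [hJ.encard_eq_eRk]
    exact h1f.encard_le_eRk_of_subset Set.subset_union_right
  have h3 : (Set.range f).encard = c := by
    rw [← Set.image_univ, hf.injective.encard_image, Set.encard_univ, ENat.card_eq_coe_natCard]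
    simp
  have h4 : (Set.range (fun i => algebraMap K L (x i))).encard = dimension k K := by
    rw [← Set.image_univ, hx'i.injective.encard_image, Set.encard_univ, ENat.card_eq_coe_natCard]
    simp
  set T : Finset (Fin c) := Finset.univ.filter
    (fun i => f i ∈ J \ Set.range (fun i => algebraMap K L (x i))) with hT
  have h5 : J \ Set.range (fun i => algebraMap K L (x i)) = f '' (T : Set (Fin c)) := by
    ext y
    constructor
    · intro hy
      rcases hJ.subset hy.1 with h | ⟨i, rfl⟩
      · exact absurd h hy.2
      · exact ⟨i, by rw [hT]; simpa using hy, rfl⟩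
    · rintro ⟨i, hi, rfl⟩
      rw [hT] at hi
      simpa using hi
  have h6 : (c : ℕ∞) ≤ (dimension k K : ℕ∞) + (T.card : ℕ∞) := by
    rw [← h3, ← h4]
    refine h2.trans ?_
    rw [← Set.encard_coe_eq_coe_finsetCard T, ← hf.injective.encard_image, ← h5, add_comm]
    rw [Set.encard_sdiff_add_encard_of_subset hXJ]
  have h7 : c ≤ dimension k K + T.card := by exact_mod_cast h6
  obtain ⟨T', hT'T, hT'⟩ := Finset.exists_subset_card_eq (s := T) (n := c - dimension k K)
    (by omega)
  let e : Fin (c - dimension k K) ≃ T' := (Finset.equivFinOfCardEq hT').symm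
  have hmem : ∀ i, f (e i) ∈ J \ Set.range (fun i => algebraMap K L (x i)) := by
    intro i
    rw [h5]
    exact ⟨_, hT'T (e i).2, rfl⟩
  refine ⟨fun i => (e i : Fin c), fun i j hij => e.injective (Subtype.ext hij), ?_⟩
  refine Pf72953.Fib.ResAux.indep_over (k := k) hx ?_
  have h8 : AlgebraicIndependent k (fun a : J => (a : L)) := hJ.indep
  have h9 := h8.comp (Sum.elim (fun i => (⟨algebraMap K L (x i), hXJ ⟨i, rfl⟩⟩ : J))
    (fun i => (⟨f (e i), (hmem i).1⟩ : J))) (by
      rintro (i | i) (j | j) hij
      · have h10 := congrArg (fun a : J => (a : L)) hij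
        exact congrArg _ (hx'i.injective h10)
      · have h10 := congrArg (fun a : J => (a : L)) hij
        exact absurd ⟨i, h10⟩ (hmem j).2
      · have h10 := congrArg (fun a : J => (a : L)) hij
        exact absurd ⟨j, h10.symm⟩ (hmem i).2
      · have h10 := congrArg (fun a : J => (a : L)) hij
        have h11 := hf.injective h10
        exact congrArg _ (e.injective (Subtype.ext h11)))
  convert h9 using 1
  funext i
  rcases i with i | i <;> rfl

theorem KodairaGE.over [CharZero k] [Algebra.EssFiniteType k L] {c : ℕ} (h : KodairaGE k L c) :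
    KodairaGE K L (c - dimension k K) := by
  classical
  haveI : CharZero K := charZero_of_injective_algebraMap (algebraMap k K).injective
  haveI : Algebra.EssFiniteType K L := Algebra.EssFiniteType.of_comp k K L
  have hfin : Algebra.trdeg k L < Cardinal.aleph0 := trdeg_lt_aleph0 k L
  have hsum := lift_trdeg_add_eq k K L
  obtain ⟨n, hn⟩ := Cardinal.lt_aleph0.mp hfin
  rw [hn, Cardinal.lift_natCast] at hsum
  have hfin2 := hsum.trans_lt (Cardinal.natCast_lt_aleph0 (n := n))
  rw [Cardinal.add_lt_aleph0_iff, Cardinal.lift_lt_aleph0, Cardinal.lift_lt_aleph0] at hfin2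
  haveI : FinTrdeg k K := FinTrdeg.of_trdeg hfin2.1
  obtain ⟨x, hx0⟩ := exists_algebraicIndependent_of_le_trdeg (k := k) (K := K)
    (n := dimension k K) trdeg_eq_dimension.le
  have hx : IsTranscendenceBasis k x := isTranscendenceBasis_of_card (Fintype.card_fin _) hx0
  obtain ⟨s, hs⟩ := exists_tb K L
  have hz := Pf72953.Fib.tb_rel hx hs
  have hdim := Pf72953.Fib.ResAux.dim_add k K L
  let E : Fin (dimension k L) ≃ Fin (dimension k K) ⊕ Fin (dimension K L) :=
    (finCongr hdim.symm).trans finSumFinEquiv.symm
  have hz' := (isTranscendenceBasis_equiv E).mpr hz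
  obtain ⟨m, hm, f₀, hf₀, hne, f, hf, hff⟩ := h.exists_coord hz'
  have hback : ∀ g, g ∈ WReg k (Sum.elim (fun a => algebraMap K L (x a)) s ∘ E) m →
      g ∈ WReg K s m := by
    intro g hg
    have h2 := WReg.reindex hg E.symm
    have h3 : (Sum.elim (fun a => algebraMap K L (x a)) s ∘ E) ∘ E.symm =
        Sum.elim (fun a => algebraMap K L (x a)) s := by
      funext a
      simp
    rw [h3] at h2
    exact Pf72953.Fib.WReg_rel hx hs h2
  obtain ⟨e, he, hfe⟩ := exists_indep_over (K := K) hf
  exact KodairaGE.of_coord hs hm (hback _ hf₀) hne hfe (fun i => hback _ (hff (e i)))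

/-- easy addition -/
theorem easy_addition (k K L : Type*) [Field k] [CharZero k] [Field K] [Field L] [Algebra k K]
    [Algebra k L] [Algebra K L] [IsScalarTower k K L] [Algebra.EssFiniteType k L] :
    kodairaDim k L ≤ ((dimension k K : ℕ∞) : WithBot ℕ∞) + kodairaDim K L := by
  rcases kodairaDim_eq (k := k) (K := L) with h | ⟨c, hc, h⟩
  · rw [h]
    exact bot_le
  · rw [h]
    have h1 := KodairaGE.over (K := K) hc
    have h2 : (((c - dimension k K : ℕ) : ℕ∞) : WithBot ℕ∞) ≤ kodairaDim K L := by
      unfold kodairaDim
      exact le_iSup₂_of_le _ h1 le_rfl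
    calc ((c : ℕ∞) : WithBot ℕ∞)
        ≤ (((dimension k K + (c - dimension k K) : ℕ) : ℕ∞) : WithBot ℕ∞) := by
          rw [WithBot.coe_le_coe]
          have : c ≤ dimension k K + (c - dimension k K) := by omega
          exact_mod_cast this
      _ = ((dimension k K : ℕ∞) : WithBot ℕ∞) +
          (((c - dimension k K : ℕ) : ℕ∞) : WithBot ℕ∞) := by
          rw [← WithBot.coe_add]
          push_cast
          rfl
      _ ≤ _ := by gcongr

end

end Pf72953.Red
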