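import Mathlib
import Pool.Agent.Lib.Pf72953.Core
import Pool.Agent.Lib.Pf72953f.Res

/-!
MODULE Pf72953r.Tb: a field of constants adapted to two subfields.

`k ⊆ B, Z ⊆ W` and `W` is algebraic over the subfield generated by `B` and `Z`.
PROOF.  The elements of `Z` generate `W` over `B` up to algebraic elements, so there is a transcendence basis of `W/B` consisting of
elements of `Z` (`exists_isTranscendenceBasis_subset` or similar for generating sets in Mathlib:
`Algebra.IsAlgebraic (Algebra.adjoin B (range (algebraMap Z W))) W` gives a transcendence basis inside the range); it has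
`r = dimension B W` elements `z_1, ..., z_r ∈ Z`.  Let `κ = IntermediateField.adjoin k (range z)`.
The `z_i` are algebraically independent over `B`, hence over `k` in `W` and in `Z`, so `dimension k κ = r`
(`z` is a transcendence basis of `κ/k`; `card_eq_of_isTranscendenceBasis`).
Let `x` be a transcendence basis of `B/k`.  `(x, z)` is a transcendence basis of `W/k` (`IsTranscendenceBasis.sumElim_comp`, as in
`Fib.tb_rel`), so `x` is algebraically independent over `k(z) = κ` and `W` is algebraic over `κ(x)`.
-/

set_option autoImplicit false

open scoped WithZero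
open Pf72953

namespace Pf72953.Red

theorem exists_const {k B Z W : Type*} [Field k] [Field B] [Field Z] [Field W] [Algebra k B]
    [Algebra k Z] [Algebra k W] [Algebra B W] [Algebra Z W] [IsScalarTower k B W]
    [IsScalarTower k Z W] [FinTrdeg k W]
    (halg : ∀ a : W, IsAlgebraic (Algebra.adjoin B (Set.range (algebraMap Z W))) a) :
    ∃ κ : IntermediateField k Z, dimension k κ = dimension B W ∧
      ∀ {ι : Type} [Finite ι] (x : ι → B), IsTranscendenceBasis k x →
        IsTranscendenceBasis κ (fun i => algebraMap B W (x i)) := by
  classical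
  have h0 : Algebra.IsAlgebraic (Algebra.adjoin B (Set.range (algebraMap Z W))) W := ⟨halg⟩
  obtain ⟨t, hts, ht⟩ := exists_isTranscendenceBasis_subset (R := B)
    (Set.range (algebraMap Z W))
  choose z hz using fun i : t => hts i.2
  have hw : (fun i => algebraMap Z W (z i)) = ((↑) : t → W) := funext hz
  -- independence over `k`
  obtain ⟨s, hs⟩ := exists_isTranscendenceBasis k B
  have hsum := hs.sumElim_comp ht
  have hfin : Finite (t ⊕ s) := finite_of_isTranscendenceBasis hsum
  have hfint : Finite t := Finite.sum_left s
  have := Fintype.ofFinite t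
  have hk : AlgebraicIndependent k ((↑) : t → W) := by
    have h1 := hsum.1.comp Sum.inl Sum.inl_injective
    exact h1
  set κ : IntermediateField k Z := IntermediateField.adjoin k (Set.range z) with hκ
  have hmem : ∀ i, z i ∈ κ := fun i => IntermediateField.subset_adjoin k _ ⟨i, rfl⟩
  let z' : t → κ := fun i => ⟨z i, hmem i⟩
  have hz'W : (fun i => algebraMap κ W (z' i)) = ((↑) : t → W) := hw
  have : IsScalarTower k κ W := IsScalarTower.of_algebraMap_eq fun a => by
    rw [IsScalarTower.algebraMap_apply k Z W]
    rfl
  have hind : AlgebraicIndependent k z' := by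
    refine AlgebraicIndependent.of_comp (IsScalarTower.toAlgHom k κ W) ?_
    have h1 : (⇑(IsScalarTower.toAlgHom k κ W) ∘ z') = ((↑) : t → W) := hz'W
    rw [h1]
    exact hk
  have htb : IsTranscendenceBasis k z' := by
    refine hind.isTranscendenceBasis_iff_isAlgebraic.mpr ?_
    rw [← IntermediateField.isAlgebraic_adjoin_iff_top]
    have h1 : IntermediateField.adjoin k (Set.range z') = ⊤ := by
      have h2 : (IntermediateField.adjoin k (Set.range z')).map κ.val = κ := by
        rw [IntermediateField.adjoin_map, ← Set.range_comp]
        rfl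
      apply IntermediateField.map_injective κ.val
      rw [h2, ← AlgHom.fieldRange_eq_map, IntermediateField.fieldRange_val]
    rw [h1]
    exact ⟨fun a => isAlgebraic_algebraMap
      (⟨a, IntermediateField.mem_top⟩ : (⊤ : IntermediateField k κ))⟩
  have hdimκ : Fintype.card t = dimension k κ := card_eq_of_isTranscendenceBasis htb
  have hdimB : Fintype.card t = dimension B W := card_eq_of_isTranscendenceBasis ht
  refine ⟨κ, by rw [← hdimκ, hdimB], ?_⟩
  intro ι hι x hx
  have := Fintype.ofFinite ι
  have hxs := hx.sumElim_comp ht
  have h3 : AlgebraicIndependent k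
      (Sum.elim (fun i => algebraMap κ W (z' i)) (fun i => algebraMap B W (x i))) := by
    rw [hz'W]
    exact hxs.1
  have h4 : AlgebraicIndependent κ (fun i => algebraMap B W (x i)) :=
    Pf72953.Fib.ResAux.indep_over htb h3
  have h5 := Pf72953.Fib.ResAux.dim_add k κ W
  have h6 := Pf72953.Fib.ResAux.dim_add k B W
  have h7 : Fintype.card ι = dimension k B := card_eq_of_isTranscendenceBasis hx
  have : FinTrdeg κ W := by
    refine FinTrdeg.of_trdeg ?_
    have h8 := lift_trdeg_add_eq k κ W
    have h9 := (Cardinal.lift_lt_aleph0.mpr (trdeg_lt_aleph0 k W))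
    rw [← h8, Cardinal.add_lt_aleph0_iff, Cardinal.lift_lt_aleph0, Cardinal.lift_lt_aleph0] at h9
    exact h9.2
  refine isTranscendenceBasis_of_card ?_ h4
  omega

end Pf72953.Red
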