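import Mathlib
import Pool.Agent.Lib.Pf72953r.SubFG
import Pool.Agent.Lib.Pf72953r.Easy
import Pool.Agent.Lib.Pf72953r.Up
import Pool.Agent.Lib.Pf72953r.Tb

/-!
MODULE Pf72953r.Double: the double fibration inequality
`κ(B/k) + κ(E/B) ≤ trdeg(Z/k) + κ(W/Z) + κ(E/W)` for `B, Z ⊆ W ⊆ E`, `W` algebraic over `B(Z)`.

PROOF.  `exists_const` gives `κ` between `k` and `Z` with `dimension k κ = dimension B W =: r` such that transcendence bases of `B/k`
are transcendence bases of `W/κ`.  All the fields are finitely generated over `k` (`essFiniteType_sub`).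
`kodairaDim k B ≤ kodairaDim κ W` (`kodairaDim_up`, basis from `exists_tb k B`),
`kodairaDim κ W ≤ dimension κ Z + kodairaDim Z W` (`easy_addition κ Z W`),
`kodairaDim B E ≤ dimension B W + kodairaDim W E` (`easy_addition B W E`; `CharZero B`:
`charZero_of_injective_algebraMap`), and `dimension k κ + dimension κ Z = dimension k Z` (`Pf72953.Fib.ResAux.dim_add`).
So the sum is at most `dimension κ Z + r + ... = dimension k Z + ...`.
-/

set_option autoImplicit false

open scoped WithZero
open Pf72953

namespace Pf72953.Red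

theorem double (k B Z W E : Type*) [Field k] [CharZero k] [Field B] [Field Z] [Field W] [Field E]
    [Algebra k B] [Algebra k Z] [Algebra k W] [Algebra k E] [Algebra B W] [Algebra Z W]
    [Algebra B E] [Algebra Z E] [Algebra W E] [IsScalarTower k B W] [IsScalarTower k Z W]
    [IsScalarTower k B E] [IsScalarTower k W E] [IsScalarTower B W E] [IsScalarTower Z W E]
    [IsScalarTower k Z E] [Algebra.EssFiniteType k E]
    (halg : ∀ a : W, IsAlgebraic (Algebra.adjoin B (Set.range (algebraMap Z W))) a) :
    kodairaDim k B + kodairaDim B E ≤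
      ((dimension k Z : ℕ∞) : WithBot ℕ∞) + (kodairaDim Z W + kodairaDim W E) := by
  have : Algebra.EssFiniteType k W := essFiniteType_sub k W E
  have : Algebra.EssFiniteType k B := essFiniteType_sub k B E
  have : Algebra.EssFiniteType k Z := essFiniteType_sub k Z E
  have : Algebra.EssFiniteType B E := Algebra.EssFiniteType.of_comp k B E
  have : CharZero B := charZero_of_injective_algebraMap (algebraMap k B).injective
  obtain ⟨κ, hκd, hκ⟩ := exists_const (k := k) (B := B) (Z := Z) (W := W) halg
  have : CharZero κ := charZero_of_injective_algebraMap (algebraMap k κ).injective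
  have : Algebra.EssFiniteType κ W := Algebra.EssFiniteType.of_comp k κ W
  obtain ⟨x, hx⟩ := exists_tb k B
  have h1 : kodairaDim k B ≤ kodairaDim κ W := kodairaDim_up k κ B W hx (hκ x hx)
  have h2 : kodairaDim κ W ≤ ((dimension κ Z : ℕ∞) : WithBot ℕ∞) + kodairaDim Z W :=
    easy_addition κ Z W
  have h3 : kodairaDim B E ≤ ((dimension B W : ℕ∞) : WithBot ℕ∞) + kodairaDim W E :=
    easy_addition B W E
  have h4 : dimension k κ + dimension κ Z = dimension k Z := Pf72953.Fib.ResAux.dim_add k κ Z
  have h5 : ((dimension k Z : ℕ∞) : WithBot ℕ∞) =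
      ((dimension κ Z : ℕ∞) : WithBot ℕ∞) + ((dimension B W : ℕ∞) : WithBot ℕ∞) := by
    rw [← h4, hκd, add_comm (dimension B W)]
    push_cast
    rfl
  calc kodairaDim k B + kodairaDim B E
      ≤ (((dimension κ Z : ℕ∞) : WithBot ℕ∞) + kodairaDim Z W) +
        (((dimension B W : ℕ∞) : WithBot ℕ∞) + kodairaDim W E) :=
          add_le_add (h1.trans h2) h3
    _ = ((dimension k Z : ℕ∞) : WithBot ℕ∞) + (kodairaDim Z W + kodairaDim W E) := by
        rw [h5, add_add_add_comm]

end Pf72953.Red
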