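import Mathlib
import Pool.Agent.Lib.Pf72953r.Double

/-!
MODULE Pf72953r.Comp: the double fibration inequality for the algebraic closure `W = comp B Z` of `B Z` in `E`.

PROOF.  `closed`: `algebraicClosure` is algebraically closed in `E`.
`double_comp`: `B → W`: the image of `B` lies in `IntermediateField.adjoin Z (range (algebraMap B E)) ⊆ W`; use
`letI : Algebra B W := ((algebraMap B E).codRestrict ..).toAlgebra` and the scalar towers (`IsScalarTower.of_algebraMap_eq`), then
`double k B Z W E`.  `halg`: an element `a ∈ W` is algebraic over `A := IntermediateField.adjoin Z (range (algebraMap B E))`, whose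
elements are quotients of elements of the ring generated by `Z` and `B`, so `a` is algebraic over `Algebra.adjoin B (range Z)`
(`IntermediateField.isAlgebraic_adjoin_iff` and similar; compare Pf72953f.Comp, Pf72953f.CompL, `isAlgebraic_transport` in Pf72953.Core);
transport along the injection `W → E`.
-/

set_option autoImplicit false

open scoped WithZero
open Pf72953

namespace Pf72953.Red

/-- the algebraic closure in `E` of the subfield generated by `Z` and `B` -/
noncomputable def comp {k E : Type*} (B : Type*) [Field k] [Field E] [Algebra k E] [Field B]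
    [Algebra B E] (Z : IntermediateField k E) : IntermediateField Z E :=
  (algebraicClosure (IntermediateField.adjoin Z (Set.range (algebraMap B E))) E).restrictScalars Z

theorem comp_closed {k E : Type*} (B : Type*) [Field k] [Field E] [Algebra k E] [Field B]
    [Algebra B E] (Z : IntermediateField k E) (a : E) (ha : IsAlgebraic (comp B Z) a) :
    a ∈ comp B Z := by
  have h1 : IsAlgebraic (algebraicClosure
      (IntermediateField.adjoin Z (Set.range (algebraMap B E))) E) a := ha
  have h2 : IsAlgebraic (IntermediateField.adjoin Z (Set.range (algebraMap B E))) a :=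
    h1.restrictScalars _
  exact (mem_algebraicClosure_iff).mpr h2

namespace CompAux

variable {k B E : Type*} [Field k] [Field B] [Field E] [Algebra k B] [Algebra k E] [Algebra B E]
  [IsScalarTower k B E] (Z : IntermediateField k E)

theorem map_mem (b : B) : algebraMap B E b ∈ comp B Z := by
  refine (mem_algebraicClosure_iff).mpr ?_
  exact isAlgebraic_algebraMap (⟨algebraMap B E b, IntermediateField.subset_adjoin _ _ ⟨b, rfl⟩⟩ :
    IntermediateField.adjoin Z (Set.range (algebraMap B E)))

theorem fwd [Algebra B (comp B Z)] (hB : ∀ b : B, ((algebraMap B (comp B Z) b : comp B Z) : E) =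
    algebraMap B E b) (r : comp B Z)
    (hr : r ∈ Algebra.adjoin B (Set.range (algebraMap Z (comp B Z)))) :
    (r : E) ∈ Algebra.adjoin Z (Set.range (algebraMap B E)) := by
  induction hr using Algebra.adjoin_induction with
  | mem x hx =>
    obtain ⟨z, rfl⟩ := hx
    exact Subalgebra.algebraMap_mem _ z
  | algebraMap b =>
    rw [hB]
    exact Algebra.subset_adjoin ⟨b, rfl⟩
  | add x y _ _ hx hy => exact Subalgebra.add_mem _ hx hy
  | mul x y _ _ hx hy => exact Subalgebra.mul_mem _ hx hy

theorem bwd [Algebra B (comp B Z)] (hB : ∀ b : B, ((algebraMap B (comp B Z) b : comp B Z) : E) =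
    algebraMap B E b) (s : E) (hs : s ∈ Algebra.adjoin Z (Set.range (algebraMap B E))) :
    ∃ r ∈ Algebra.adjoin B (Set.range (algebraMap Z (comp B Z))), (r : E) = s := by
  induction hs using Algebra.adjoin_induction with
  | mem x hx =>
    obtain ⟨b, rfl⟩ := hx
    exact ⟨algebraMap B (comp B Z) b, Subalgebra.algebraMap_mem _ b, hB b⟩
  | algebraMap z => exact ⟨algebraMap Z (comp B Z) z, Algebra.subset_adjoin ⟨z, rfl⟩, rfl⟩
  | add x y _ _ hx hy =>
    obtain ⟨a, ha, rfl⟩ := hx
    obtain ⟨b, hb, rfl⟩ := hy
    exact ⟨a + b, Subalgebra.add_mem _ ha hb, rfl⟩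
  | mul x y _ _ hx hy =>
    obtain ⟨a, ha, rfl⟩ := hx
    obtain ⟨b, hb, rfl⟩ := hy
    exact ⟨a * b, Subalgebra.mul_mem _ ha hb, rfl⟩

theorem halg [Algebra B (comp B Z)] (hB : ∀ b : B, ((algebraMap B (comp B Z) b : comp B Z) : E) =
    algebraMap B E b) (a : comp B Z) :
    IsAlgebraic (Algebra.adjoin B (Set.range (algebraMap Z (comp B Z)))) a := by
  have h1 : IsAlgebraic (IntermediateField.adjoin Z (Set.range (algebraMap B E))) (a : E) :=
    (mem_algebraicClosure_iff).mp a.2
  have h2 : IsAlgebraic (Algebra.adjoin Z (Set.range (algebraMap B E))) (a : E) :=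
    IntermediateField.isAlgebraic_adjoin_iff.mp h1
  let f : Algebra.adjoin B (Set.range (algebraMap Z (comp B Z))) →+*
      Algebra.adjoin Z (Set.range (algebraMap B E)) :=
    { toFun := fun r => ⟨((r : comp B Z) : E), fwd Z hB r.1 r.2⟩
      map_one' := rfl
      map_mul' := fun _ _ => rfl
      map_zero' := rfl
      map_add' := fun _ _ => rfl }
  have hf : Function.Surjective f := by
    rintro ⟨s, hs⟩
    obtain ⟨r, hr, rfl⟩ := bwd Z hB s hs
    exact ⟨⟨r, hr⟩, rfl⟩
  exact IsAlgebraic.of_ringHom_of_comp_eq f (algebraMap (comp B Z) E) h2 hf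
    (algebraMap (comp B Z) E).injective rfl

end CompAux

theorem double_comp (k B E : Type*) [Field k] [CharZero k] [Field B] [Field E] [Algebra k B]
    [Algebra k E] [Algebra B E] [IsScalarTower k B E] [Algebra.EssFiniteType k E]
    (Z : IntermediateField k E) :
    kodairaDim k B + kodairaDim B E ≤ ((dimension k Z : ℕ∞) : WithBot ℕ∞) +
      (kodairaDim Z (comp B Z) + kodairaDim (comp B Z) E) := by
  letI algBW : Algebra B (comp B Z) :=
    ((algebraMap B E).codRestrict (comp B Z).toSubring (fun b => CompAux.map_mem Z b)).toAlgebra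
  have hB : ∀ b : B, ((algebraMap B (comp B Z) b : comp B Z) : E) = algebraMap B E b :=
    fun _ => rfl
  haveI : IsScalarTower B (comp B Z) E := IsScalarTower.of_algebraMap_eq fun _ => rfl
  haveI : IsScalarTower k Z (comp B Z) := IsScalarTower.of_algebraMap_eq fun _ => rfl
  haveI : IsScalarTower k (comp B Z) E := IsScalarTower.of_algebraMap_eq fun _ => rfl
  haveI : IsScalarTower k B (comp B Z) := IsScalarTower.of_algebraMap_eq fun c =>
    (algebraMap (comp B Z) E).injective (IsScalarTower.algebraMap_apply k B E c)
  exact double k B Z (comp B Z) E (CompAux.halg Z hB)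

end Pf72953.Red
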