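import Mathlib
import Pool.Agent.Lib.Pf72953w.Main
import Pool.Agent.Lib.Pf72953f.ExPow
import Pool.Agent.Lib.Pf72953f.KodZero
import Pool.Agent.Lib.Pf72953f.NonUni

/-!
The diagonal theorem for fibre powers (from the hand-in DiagonalForms).
-/

set_option autoImplicit false
set_option linter.style.haveILetI false

open scoped WithZero
open Pf72953 Pf72953.Fib

namespace Pf72953.Red

/-- The Iitaka dimension over the field `K₀` (`K₀ = k` or `K₀ = B`) of the restrictions to the diagonal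
of the sections of `m K_L + n K_B`, `n < (r - 1) m`, on the fibre power `L` of `E/B`; it is `⊥ = -∞` if all
of them vanish on the diagonal. -/
noncomputable def diagDim (k B K₀ E L : Type*) [Field k] [Field B] [Field K₀] [Field E] [Field L]
    [Algebra k B] [Algebra K₀ E] [Algebra k L] [Algebra B E] [Algebra B L] {r : ℕ}
    (i : Fin r → E →ₐ[B] L) : WithBot ℕ∞ :=
  ⨆ (c : ℕ) (_ : TwDiagGE k B K₀ E L i c), ((c : ℕ∞) : WithBot ℕ∞)

theorem diagDim_eq {k B K₀ E L : Type*} [Field k] [Field B] [Field K₀] [Field E] [Field L]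
    [Algebra k B] [Algebra K₀ E] [Algebra k L] [Algebra B E] [Algebra B L]
    [Algebra.EssFiniteType K₀ E] {r : ℕ} (i : Fin r → E →ₐ[B] L) :
    diagDim k B K₀ E L i = ⊥ ∨ ∃ c : ℕ, TwDiagGE k B K₀ E L i c ∧
      diagDim k B K₀ E L i = ((c : ℕ∞) : WithBot ℕ∞) := by
  classical
  have hbd : ∀ c, TwDiagGE k B K₀ E L i c → c ≤ dimension K₀ E := by
    rintro c ⟨m, n, N, x, s, e, y, -, -, -, -, -, -, hf⟩
    have h1 := natCast_le_trdeg_of_le_dimension hf
    rw [← trdeg_eq_dimension] at h1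
    exact_mod_cast h1
  by_cases h : ∃ c, TwDiagGE k B K₀ E L i c
  · right
    obtain ⟨c₀, hc₀⟩ := h
    set c := Nat.findGreatest (fun c => TwDiagGE k B K₀ E L i c) (dimension K₀ E) with hc
    have hcGE : TwDiagGE k B K₀ E L i c :=
      Nat.findGreatest_spec (P := fun c => TwDiagGE k B K₀ E L i c) (hbd c₀ hc₀) hc₀
    refine ⟨c, hcGE, le_antisymm ?_ ?_⟩
    · refine iSup₂_le fun d hd => ?_
      have : d ≤ c := Nat.le_findGreatest (hbd d hd) hd
      exact_mod_cast this
    · exact le_iSup₂_of_le c hcGE le_rfl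
  · left
    push Not at h
    rw [diagDim]
    exact le_antisymm (iSup₂_le fun c hc => absurd hc (h c)) bot_le

/-- The Iitaka dimension of the sections of `m K_L + n K_B`, `m ≥ 1`, `0 ≤ n < q m`; it is `⊥ = -∞` if there
are no nonzero sections. -/
noncomputable def twDim (k B L : Type*) [Field k] [Field B] [Field L] [Algebra k B] [Algebra k L]
    [Algebra B L] (q : ℕ) : WithBot ℕ∞ :=
  ⨆ (c : ℕ) (_ : TwKodairaGE k B L q c), ((c : ℕ∞) : WithBot ℕ∞)

theorem TwKodairaGE.zero {k B L : Type*} [Field k] [Field B] [Field L] [Algebra k B] [Algebra k L]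
    [Algebra B L] {q : ℕ} (h : twDim k B L q ≠ ⊥) : TwKodairaGE k B L q 0 := by
  by_contra hcon
  apply h
  refine le_bot_iff.mp (iSup₂_le fun c hc => ?_)
  obtain ⟨m, n, x, hm, hn, hx, ω₀, hω₀, hne, -⟩ := hc
  exact absurd ⟨m, n, x, hm, hn, hx, ω₀, hω₀, hne, Fin.elim0, algebraicIndependent_empty_type,
    fun l => l.elim0⟩ hcon

theorem main (k B E L : Type*) [Field k] [CharZero k] [Field B] [Field E] [Field L]
    [Algebra k B] [Algebra k E] [Algebra k L] [Algebra B E] [Algebra B L] [IsScalarTower k B E]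
    [IsScalarTower k B L] [Algebra.EssFiniteType k B] [Algebra.EssFiniteType k E]
    (hE : ∀ a : E, IsAlgebraic B a → ∃ b : B, algebraMap B E b = a) {r : ℕ} (hr : 2 ≤ r)
    (i : Fin r → E →ₐ[B] L) (h : IsFibrePower B E L i) :
    kodairaDim k B ≤ orbKodairaDim k B E ∧
    orbKodairaDim k B E + diagDim k B B E L i ≤ kodairaDim k E ∧
    (orbKodairaDim k B E ≠ ⊥ → diagDim k B k E L i ≤ kodairaDim k E) ∧
    kodairaDim k L ≤ twDim k B L (r - 1) ∧
    (kodairaDim B E ≤ 0 →
      (twDim k B L (r - 1) ≠ ⊥ → orbKodairaDim k B E ≤ kodairaDim k E) ∧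
      (orbKodairaDim k B E ≠ ⊥ → twDim k B L (r - 1) ≤ kodairaDim k E)) := by
  haveI : Algebra.EssFiniteType B E := Algebra.EssFiniteType.of_comp k B E
  haveI : Algebra.EssFiniteType B L := h.essFiniteType
  haveI : Algebra.EssFiniteType k L := Algebra.EssFiniteType.comp k B L
  have h1 : kodairaDim k B ≤ orbKodairaDim k B E := by
    refine iSup₂_le fun c hc => ?_
    exact le_iSup₂_of_le c hc.orb le_rfl
  have h2 : orbKodairaDim k B E + diagDim k B B E L i ≤ kodairaDim k E := by
    rcases orbKodairaDim_eq (k := k) (B := B) (E := E) with hB | ⟨a, ha, ha'⟩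
    · rw [hB]; simp
    rcases diagDim_eq (k := k) (B := B) (K₀ := B) i with hF | ⟨b, hb, hb'⟩
    · rw [hF]; simp
    rw [ha', hb']
    have h3 := diag_rel' hE (by omega) h ha.orbCoord hb
    refine le_trans (le_of_eq ?_) (le_iSup₂_of_le (a + b) h3 le_rfl)
    push_cast
    rfl
  have h3 : orbKodairaDim k B E ≠ ⊥ → diagDim k B k E L i ≤ kodairaDim k E := by
    intro hne
    rcases orbKodairaDim_eq (k := k) (B := B) (E := E) with hB | ⟨a, ha, ha'⟩
    · exact absurd hB hne
    exact iSup₂_le fun c hc => le_iSup₂_of_le c (diag_abs' hE (by omega) h ha.orbCoord hc) le_rfl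
  have h0 : kodairaDim k L ≤ twDim k B L (r - 1) :=
    iSup₂_le fun c hc => le_iSup₂_of_le c (KodairaGE.tw (by omega) hc) le_rfl
  refine ⟨h1, h2, h3, h0, fun hF => ?_⟩
  have hF' : ¬ KodairaGE B E 1 := by
    intro h1
    have h4 : (((1 : ℕ) : ℕ∞) : WithBot ℕ∞) ≤ 0 :=
      le_trans (le_iSup₂_of_le (f := fun (c : ℕ) (_ : KodairaGE B E c) =>
        ((c : ℕ∞) : WithBot ℕ∞)) 1 h1 le_rfl) hF
    have h5 : ¬ ((((1 : ℕ) : ℕ∞) : WithBot ℕ∞) ≤ 0) := by
      rw [not_le]
      norm_num
    exact h5 h4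
  constructor
  · intro hL
    obtain ⟨m, n, N, x, s, e, y, hm, hn, hx, hs, hreg, hne, -⟩ :=
      twDiagGE_of_fibre hE (by omega : 1 ≤ r) h hF' (TwKodairaGE.zero hL)
    have h4 : TwDiagGE k B B E L i 0 := ⟨m, n, N, x, s, e, y, hm, hn, hx, hs, hreg, hne,
      algebraicIndependent_empty_type⟩
    have h5 : ((0 : ℕ∞) : WithBot ℕ∞) ≤ diagDim k B B E L i := le_iSup₂_of_le 0 h4 le_rfl
    calc orbKodairaDim k B E = orbKodairaDim k B E + ((0 : ℕ∞) : WithBot ℕ∞) := by simp
      _ ≤ orbKodairaDim k B E + diagDim k B B E L i := by gcongr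
      _ ≤ kodairaDim k E := h2
  · intro hne
    refine le_trans ?_ (h3 hne)
    exact iSup₂_le fun c hc => le_iSup₂_of_le c
      (twDiagGE_of_fibre hE (by omega : 1 ≤ r) h hF' hc) le_rfl

universe u v

/-- the fibre power -/
theorem exists_power (k : Type v) (B E : Type u) [Field k] [CharZero k] [Field B] [Algebra k B]
    [Algebra.EssFiniteType k B] [Field E] [Algebra k E] [Algebra B E] [IsScalarTower k B E]
    [Algebra.EssFiniteType k E] (hE : ∀ a : E, IsAlgebraic B a → ∃ b : B, algebraMap B E b = a)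
    (hF : kodairaDim B E = 0) {r : ℕ} (hr : 2 ≤ r) :
    ∃ (L : Type u) (_ : Field L) (_ : Algebra k L) (_ : Algebra B L) (_ : IsScalarTower k B L)
      (_ : Algebra.EssFiniteType k L),
      (∀ a : L, IsAlgebraic B a → ∃ b : B, algebraMap B L b = a) ∧ kodairaDim B L = 0 ∧
      dimension B L = r * dimension B E ∧ kodairaDim k L ≤ twDim k B L (r - 1) ∧
      (twDim k B L (r - 1) ≠ ⊥ → orbKodairaDim k B E ≤ kodairaDim k E) := by
  haveI : Algebra.EssFiniteType B E := Algebra.EssFiniteType.of_comp k B E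
  haveI : CharZero B := charZero_of_injective_algebraMap (algebraMap k B).injective
  obtain ⟨L, instL, instBL, i, h⟩ := exists_fibrePower (B := B) (E := E) r
  letI : Algebra k L := ((algebraMap B L).comp (algebraMap k B)).toAlgebra
  haveI : IsScalarTower k B L := IsScalarTower.of_algebraMap_eq fun _ => rfl
  haveI : Algebra.EssFiniteType B L := h.essFiniteType
  haveI : Algebra.EssFiniteType k L := Algebra.EssFiniteType.comp k B L
  exact ⟨L, instL, inferInstance, instBL, inferInstance, inferInstance,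
    IsFibrePower.closed hE r h, h.kodairaDim_zero hE (by omega) hF, h.dim,
    (main k B E L hE hr i h).2.2.2.1, ((main k B E L hE hr i h).2.2.2.2 hF.le).1⟩


end Pf72953.Red
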