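import Mathlib
import Pool.Agent.Lib.Pf72953u.Dvr

/-!
MODULE Pf72953r.Kill: in a noetherian normal domain `A` with fraction field `K`, let `S ⊆ A` be multiplicatively closed. If for every
discrete valuation `v` of `K` whose ring is a localisation of `A` and with `v F > 1` some element of `S` has `v < 1`, then
`P * F ∈ A` for some `P ∈ S`.

PROOF.  For `G : K` let `den A G = {a ∈ A : a G ∈ A}` (an ideal of `A`, Pf72953u.Dvr).  As `A` is noetherian choose `P ∈ S` with `den A (P F)`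
maximal among these ideals (`set_has_maximal_iff_noetherian`, as in `exists_prime` of Pf72953u.Dvr).  Suppose `P F ∉ A`.
`exists_dvr` gives `v` with `v ≤ 1` on `A`, `1 < v (P F)` and `O_v` a localisation of `A`. As `v P ≤ 1`, `1 < v F`, so there is
`P' ∈ S` with `v P' < 1`.  For large `n`, `v (P' ^ n * (P * F)) ≤ 1` (`ℤᵐ⁰` is archimedean: `v P' ≤ exp (-1)`; `P' ≠ 0` or
`P' = 0`, then `n = 1`), so `P'^n P F = a / b` with `a, b ∈ A`, `v b = 1`, `b ≠ 0`; then `b ∈ den A ((P'^n P) F)`, but `b P F ∉ A` because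
`v (b P F) > 1`.  And `den A (P F) ⊆ den A (P'^n P F)` since `P'^n ∈ A`.  This contradicts the maximality (`P'^n * P ∈ S`).
-/

set_option autoImplicit false

open scoped WithZero
open Pf72953

namespace Pf72953.Red

open Pf72953.Up Pf72953.Up.DvrAux in
theorem exists_kill {κ K : Type*} [Field κ] [Field K] [Algebra κ K] (A : Subalgebra κ K)
    [IsNoetherianRing A] (hfrac : ∀ f : K, ∃ g ∈ A, ∃ h ∈ A, h ≠ 0 ∧ f = g / h)
    (hnorm : ∀ z : K, IsIntegral A z → z ∈ A) (S : Submonoid K) (hS : ∀ P ∈ S, P ∈ A) (F : K)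
    (h : ∀ v : Valuation K ℤᵐ⁰, (∀ a ∈ A, v a ≤ 1) →
      (∀ z, v z ≤ 1 → ∃ a ∈ A, ∃ b ∈ A, v b = 1 ∧ z = a / b) → 1 < v F → ∃ P ∈ S, v P < 1) :
    ∃ P ∈ S, P * F ∈ A := by
  classical
  obtain ⟨M, ⟨P, hPS, rfl⟩, hmax⟩ := set_has_maximal_iff_noetherian.2 (inferInstance :
    IsNoetherian A A) {I : Ideal A | ∃ P : K, P ∈ S ∧ I = den A (P * F)}
    ⟨_, 1, S.one_mem, rfl⟩
  refine ⟨P, hPS, ?_⟩
  by_contra hcon
  obtain ⟨v, hvA, hvF, hloc⟩ := exists_dvr A hfrac hnorm hcon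
  have hvP : v P ≤ 1 := hvA P (hS P hPS)
  have hvF1 : 1 < v F := by
    refine lt_of_lt_of_le hvF ?_
    rw [map_mul]
    exact mul_le_of_le_one_left' hvP
  obtain ⟨P', hP'S, hP'⟩ := h v hvA hloc hvF1
  -- a power of `P'` kills the pole
  obtain ⟨n, hn⟩ : ∃ n : ℕ, v (P' ^ n * (P * F)) ≤ 1 := by
    rcases eq_or_ne (v P') 0 with h0 | h0
    · refine ⟨1, ?_⟩
      rw [pow_one, map_mul, h0, zero_mul]
      exact zero_le_one
    · have h1 : 1 < (v P')⁻¹ := (one_lt_inv₀ (zero_lt_iff.2 h0)).2 hP'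
      obtain ⟨n, hn⟩ := MulArchimedean.arch (v (P * F)) h1
      refine ⟨n, ?_⟩
      rw [map_mul, map_pow]
      calc v P' ^ n * v (P * F) ≤ v P' ^ n * (v P')⁻¹ ^ n := mul_le_mul' le_rfl hn
        _ = 1 := by rw [← mul_pow, mul_inv_cancel₀ h0, one_pow]
  obtain ⟨a, ha, b, hb, hvb, hab⟩ := hloc _ hn
  have hb0 : b ≠ 0 := by
    rintro rfl
    rw [map_zero] at hvb
    exact zero_ne_one hvb
  have hP'n : P' ^ n ∈ A := A.pow_mem (hS P' hP'S) n
  have hle : den A (P * F) ≤ den A ((P' ^ n * P) * F) := by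
    intro c hc
    rw [mem_den] at hc ⊢
    have e : (c : K) * (P' ^ n * P * F) = P' ^ n * ((c : K) * (P * F)) := by ring
    rw [e]
    exact A.mul_mem hP'n hc
  have hnl := hmax _ ⟨P' ^ n * P, S.mul_mem (S.pow_mem hP'S n) hPS, rfl⟩
  have heq := hle.eq_of_not_lt hnl
  have h1 : (⟨b, hb⟩ : A) ∈ den A ((P' ^ n * P) * F) := by
    rw [mem_den]
    show b * (P' ^ n * P * F) ∈ A
    rw [mul_assoc (P' ^ n) P F, hab, mul_div_cancel₀ _ hb0]
    exact ha
  rw [← heq, mem_den] at h1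
  have h2 := hvA _ h1
  rw [map_mul] at h2
  have h3 : v ((⟨b, hb⟩ : A) : K) = 1 := hvb
  rw [h3, one_mul] at h2
  exact absurd h2 (not_le.2 hvF)

end Pf72953.Red
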