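import Mathlib
import Pool.Agent.Lib.Pf72953.Core
import Pool.Agent.Lib.Pf72953m.Cert
import Pool.Agent.Lib.Pf72953u.Main
import Pool.Agent.Lib.Pf72953u.Normal
import Pool.Agent.Lib.Pf72953r.Kill

/-!
MODULE Pf72953r.Asm: killing the vertical poles of a form on a smooth complete model `M` of `E/k`.

`z` a transcendence basis of `E/k`, `T` a set of divisorial valuations (vertical ones) such that for each `v ∈ T` some nonzero regular
`d`-form `P (dz)^d` vanishes at `v`, and `Θ (dz)^N` a rational form regular at all divisorial valuations outside `T`. Then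
`P Θ (dz)^{d+N}` is regular for some nonzero regular form `P (dz)^d`.

PROOF.  For a chart `i` write `J = jac (M.tb i) z ≠ 0` (`jac_ne_zero`); the coefficient of `h (dz)^d` in the coordinates `M.x i` is
`h * J ^ d`; if `h ∈ WReg k z d` then it lies in `M.A i` (`Chart.hartogs` for `chart_of_model M i` would give a divisorial `v` with
`RegBasis k v (M.x i)` and `1 < v (h J^d)`).
`exists_chart`: apply `exists_kill` to `A = M.A i` (noetherian: `Chart.isNoetherian`; normal: `Chart.mem_of_isIntegral`),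
`S = {h * J ^ d : h ≠ 0, h ∈ WReg k z d}` (a submonoid of `E`: `WReg` products, `1 ∈ WReg k z 0`), `F = Θ * J ^ N`.  For `v` as in
`exists_kill` `Chart.isDivisorial` shows that `v` is divisorial with `RegBasis k v (M.x i)` (`v F > 1` gives
nontriviality), so `v F > 1` means that `Θ (dz)^N` is not regular at `v`, hence `v ∈ T` and there is `P` with
`v P * v J ^ d < 1`.  The result: `h J^d Θ J^N ∈ M.A i`.
`exists_mult`: for each of the finitely many charts take `h_i`, `d_i`; `P = ∏ h_i`, `d = ∑ d_i`.  Then `P Θ J^{d+N} ∈ M.A i` for all `i` (the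
other factors `h_j J^{d_j}` are in `M.A i`).  If `v` is divisorial with regular basis `c` then it is centred on a chart (`M.cover`),
`v (P Θ J^{d+N}) ≤ 1` and `jac c z = jac c (M.x i) * J` (`jac_chain`), `v (jac c (M.x i)) ≤ 1` (`RegBasis.jac_le`,
`M.mem`), so `v (P Θ) * v (jac c z)^(d+N) ≤ 1`.
-/

set_option autoImplicit false

open scoped WithZero
open Pf72953 Pf72953.Mov

namespace Pf72953.Red

variable {k E : Type*} [Field k] [CharZero k] [Field E] [Algebra k E]

namespace AsmAux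

theorem mul_mem {ι : Type*} [Fintype ι] [DecidableEq ι] {z : ι → E} {d d' : ℕ} {f g : E}
    (hf : f ∈ WReg k z d) (hg : g ∈ WReg k z d') : f * g ∈ WReg k z (d + d') := by
  intro w hw c hc
  have h1 := hf w hw c hc
  have h2 := hg w hw c hc
  rw [map_mul, pow_add]
  calc w f * w g * (w (jac hc.tb z) ^ d * w (jac hc.tb z) ^ d') =
      (w f * w (jac hc.tb z) ^ d) * (w g * w (jac hc.tb z) ^ d') := by
        simp only [mul_left_comm, mul_assoc]
    _ ≤ 1 := mul_le_one' h1 h2

theorem one_mem {ι : Type*} [Fintype ι] [DecidableEq ι] {z : ι → E} : (1 : E) ∈ WReg k z 0 := by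
  intro w hw c hc
  rw [map_one, pow_zero, mul_one]

theorem prod_mem {ι : Type*} [Fintype ι] [DecidableEq ι] {z : ι → E} {I : Type*} (s : Finset I)
    (d : I → ℕ) (P : I → E) (h : ∀ i ∈ s, P i ∈ WReg k z (d i)) :
    ∏ i ∈ s, P i ∈ WReg k z (∑ i ∈ s, d i) := by
  classical
  induction s using Finset.induction_on with
  | empty => simpa using one_mem
  | insert a s ha ih =>
    rw [Finset.prod_insert ha, Finset.sum_insert ha]
    exact mul_mem (h a (Finset.mem_insert_self a s))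
      (ih fun i hi => h i (Finset.mem_insert_of_mem hi))

/-- regular forms are regular on the charts -/
theorem mem_chart (M : SmoothModel k E) {z : Fin (dimension k E) → E} {d : ℕ} {h : E}
    (hh : h ∈ WReg k z d) (i : M.I) : h * jac (M.tb i) z ^ d ∈ M.A i := by
  by_contra hcon
  obtain ⟨v, hv, hvx, _, hvf⟩ := (Up.chart_of_model M i).hartogs hcon
  have h1 := hh v hv (M.x i) hvx
  rw [map_mul, map_pow] at hvf
  exact absurd h1 (not_le.mpr hvf)

/-- the monoid of multipliers -/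
def mon (z : Fin (dimension k E) → E) (J : E) : Submonoid E where
  carrier := {a | ∃ (d : ℕ) (P : E), P ≠ 0 ∧ P ∈ WReg k z d ∧ a = P * J ^ d}
  one_mem' := ⟨0, 1, one_ne_zero, one_mem, by rw [pow_zero, mul_one]⟩
  mul_mem' := by
    rintro _ _ ⟨d, P, hP, hPW, rfl⟩ ⟨d', P', hP', hPW', rfl⟩
    exact ⟨d + d', P * P', mul_ne_zero hP hP', mul_mem hPW hPW', by rw [pow_add]; ring⟩

end AsmAux

theorem exists_chart (M : SmoothModel k E) {z : Fin (dimension k E) → E}
    (hz : IsTranscendenceBasis k z) (T : Set (Valuation E ℤᵐ⁰))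
    (hT : ∀ v ∈ T, IsDivisorial k E v → ∃ (d : ℕ) (P : E), P ≠ 0 ∧ P ∈ WReg k z d ∧
      ∀ (c : Fin (dimension k E) → E) (hc : RegBasis k v c), v P * v (jac hc.tb z) ^ d < 1)
    {N : ℕ} {Θ : E}
    (hΘ : ∀ v : Valuation E ℤᵐ⁰, v ∉ T → IsDivisorial k E v →
      ∀ (c : Fin (dimension k E) → E) (hc : RegBasis k v c), v Θ * v (jac hc.tb z) ^ N ≤ 1)
    (i : M.I) :
    ∃ (d : ℕ) (P : E), P ≠ 0 ∧ P ∈ WReg k z d ∧
      P * jac (M.tb i) z ^ d * (Θ * jac (M.tb i) z ^ N) ∈ M.A i := by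
  have hC := Up.chart_of_model M i
  haveI := hC.isNoetherian
  obtain ⟨_, ⟨d, P, hP, hPW, rfl⟩, hmem⟩ := exists_kill (M.A i) hC.frac
    (fun y hy => hC.mem_of_isIntegral hy) (AsmAux.mon z (jac (M.tb i) z)) (by
      rintro _ ⟨d, P, hP, hPW, rfl⟩
      exact AsmAux.mem_chart M hPW i) (Θ * jac (M.tb i) z ^ N) (by
      intro v hvA hloc hvF
      have hnt : ∃ a : E, a ≠ 0 ∧ v a ≠ 1 := by
        refine ⟨Θ * jac (M.tb i) z ^ N, ?_, hvF.ne'⟩
        intro h0
        rw [h0, map_zero] at hvF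
        simp at hvF
      obtain ⟨hv, hvx⟩ := hC.isDivisorial hvA hnt hloc
      by_cases hvT : v ∈ T
      · obtain ⟨d, P, hP, hPW, hlt⟩ := hT v hvT hv
        refine ⟨P * jac (M.tb i) z ^ d, ⟨d, P, hP, hPW, rfl⟩, ?_⟩
        rw [map_mul, map_pow]
        exact hlt (M.x i) hvx
      · exfalso
        have h1 := hΘ v hvT hv (M.x i) hvx
        rw [map_mul, map_pow] at hvF
        exact absurd h1 (not_le.mpr hvF))
  exact ⟨d, P, hP, hPW, hmem⟩

theorem exists_mult (M : SmoothModel k E) {z : Fin (dimension k E) → E}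
    (hz : IsTranscendenceBasis k z) (T : Set (Valuation E ℤᵐ⁰))
    (hT : ∀ v ∈ T, IsDivisorial k E v → ∃ (d : ℕ) (P : E), P ≠ 0 ∧ P ∈ WReg k z d ∧
      ∀ (c : Fin (dimension k E) → E) (hc : RegBasis k v c), v P * v (jac hc.tb z) ^ d < 1)
    {N : ℕ} {Θ : E}
    (hΘ : ∀ v : Valuation E ℤᵐ⁰, v ∉ T → IsDivisorial k E v →
      ∀ (c : Fin (dimension k E) → E) (hc : RegBasis k v c), v Θ * v (jac hc.tb z) ^ N ≤ 1) :
    ∃ (d : ℕ) (P : E), P ≠ 0 ∧ P ∈ WReg k z d ∧ P * Θ ∈ WReg k z (d + N) := by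
  classical
  haveI := M.finite
  haveI := Fintype.ofFinite M.I
  choose d P hP hPW hPA using exists_chart M hz T hT hΘ
  refine ⟨∑ i, d i, ∏ i, P i, Finset.prod_ne_zero_iff.mpr fun i _ => hP i,
    AsmAux.prod_mem _ d P fun i _ => hPW i, ?_⟩
  intro w hw c hc
  obtain ⟨i, hi⟩ := M.cover w hw.const
  set J := jac (M.tb i) z with hJ
  -- the product is regular on the chart
  have h1 : (∏ j, P j) * Θ * J ^ (∑ j, d j + N) ∈ M.A i := by
    have h2 : (∏ j, P j) * Θ * J ^ (∑ j, d j + N) =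
        (∏ j ∈ Finset.univ.erase i, (P j * J ^ d j)) * (P i * J ^ d i * (Θ * J ^ N)) := by
      rw [pow_add, ← Finset.prod_pow_eq_pow_sum, ← Finset.mul_prod_erase Finset.univ P
        (Finset.mem_univ i), ← Finset.mul_prod_erase Finset.univ (fun j => J ^ d j)
        (Finset.mem_univ i), Finset.prod_mul_distrib]
      ring
    rw [h2]
    refine (M.A i).mul_mem ((M.A i).prod_mem fun j _ => ?_) (hPA i)
    exact AsmAux.mem_chart M (hPW j) i
  have h3 := hi _ h1
  have h4 : w (jac hc.tb (M.x i)) ≤ 1 := hc.jac_le (M.x i) (fun a => hi _ (M.mem i a))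
  rw [jac_chain (M.tb i) hc.tb z, map_mul w (jac hc.tb (M.x i)), mul_pow]
  rw [map_mul, map_pow] at h3
  calc w ((∏ j, P j) * Θ) * (w (jac hc.tb (M.x i)) ^ (∑ j, d j + N) * w J ^ (∑ j, d j + N)) =
      w (jac hc.tb (M.x i)) ^ (∑ j, d j + N) * (w ((∏ j, P j) * Θ) * w J ^ (∑ j, d j + N)) := by
        simp only [mul_left_comm]
    _ ≤ 1 := mul_le_one' (pow_le_one' h4 _) h3

end Pf72953.Red
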