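import Mathlib
import Pool.Agent.Lib.Pf72953.Core

/-!
MODULE Pf72953r.Ratio: the ratios of pluricanonical forms are algebraic over `k(f_1, ..., f_c)` if `f_1, ..., f_c` are algebraically
independent ratios and `c` is maximal.

PROOF.  Otherwise `g` is transcendental over `k(f)`, so `(f_1, ..., f_c, g)` is algebraically independent over `k`, and so are the powers
`(f_1^m, ..., f_c^m, g^{m₀})` (`algebraicIndependent_pow` for a common exponent is in Pf72953.Core; here use
`AlgebraicIndependent.polynomial_aeval_of_transcendental` with different exponents, as in its proof).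
`h₀ := f₀^m g₀^{m₀}` is a nonzero element of `WReg k z (m₀ m + m m₀)`, and `f_i^m h₀ = (f_i f₀)^m g₀^{m₀}`,
`g^{m₀} h₀ = f₀^m (g g₀)^{m₀}` are in it as well (`WReg.pow`, and the product of forms: `WReg.mul'` in Pf72953v.CoreV or two lines).
So `KodairaGE k E (c + 1)` by `KodairaGE.of_coord`, a contradiction.
-/

set_option autoImplicit false

open scoped WithZero
open Pf72953

namespace Pf72953.Red

namespace RatioAux

theorem wreg_mul {k K ι : Type*} [Field k] [CharZero k] [Field K] [Algebra k K] [Fintype ι]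
    [DecidableEq ι] {z : ι → K} {m m' : ℕ} {f g : K} (hf : f ∈ WReg k z m)
    (hg : g ∈ WReg k z m') : f * g ∈ WReg k z (m + m') := by
  intro w hw c hc
  rw [map_mul, pow_add, mul_mul_mul_comm]
  exact mul_le_one' (hf w hw c hc) (hg w hw c hc)

end RatioAux

open RatioAux in
theorem ratio_algebraic {k E : Type*} [Field k] [CharZero k] [Field E] [Algebra k E]
    [Algebra.EssFiniteType k E] {z : Fin (dimension k E) → E} (hz : IsTranscendenceBasis k z)
    {c m₀ : ℕ} (hm₀ : 1 ≤ m₀) {f₀ : E} (hf₀ : f₀ ∈ WReg k z m₀) (hne : f₀ ≠ 0) {f : Fin c → E}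
    (hf : AlgebraicIndependent k f) (hff : ∀ i, f i * f₀ ∈ WReg k z m₀)
    (hmax : ¬ KodairaGE k E (c + 1)) {m : ℕ} (hm : 1 ≤ m) {g₀ g : E} (hg₀ : g₀ ∈ WReg k z m)
    (hg₀ne : g₀ ≠ 0) (hg : g * g₀ ∈ WReg k z m) :
    IsAlgebraic (IntermediateField.adjoin k (Set.range f)) g := by
  classical
  rw [IntermediateField.isAlgebraic_adjoin_iff]
  by_contra hg'
  have hind : AlgebraicIndependent k (fun o : Option (Fin c) => o.elim g f) :=
    (hf.option_iff_transcendental g).2 hg'
  have hpow : AlgebraicIndependent k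
      (fun o : Option (Fin c) => o.elim (g ^ m₀) (fun i => f i ^ m)) := by
    have h1 := hind.polynomial_aeval_of_transcendental
      (f := fun o => o.elim ((Polynomial.X : Polynomial k) ^ m₀) (fun _ => Polynomial.X ^ m))
      (fun o => by
        cases o with
        | none => exact (Polynomial.transcendental_X k).pow (by omega)
        | some i => exact (Polynomial.transcendental_X k).pow (by omega))
    have h2 : (fun o : Option (Fin c) => Polynomial.aeval (o.elim g f)
        (o.elim ((Polynomial.X : Polynomial k) ^ m₀) (fun _ => Polynomial.X ^ m))) =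
        fun o : Option (Fin c) => o.elim (g ^ m₀) (fun i => f i ^ m) := by
      funext o
      cases o <;> simp
    rw [h2] at h1
    exact h1
  have hfin : AlgebraicIndependent k
      ((fun o : Option (Fin c) => o.elim (g ^ m₀) (fun i => f i ^ m)) ∘ finSuccEquiv c) :=
    hpow.comp _ (finSuccEquiv c).injective
  apply hmax
  refine KodairaGE.of_coord hz (m := m₀ * m + m * m₀)
    (by have : 1 ≤ m₀ * m := Nat.mul_pos hm₀ hm
        omega)
    (wreg_mul (WReg.pow hf₀ m) (WReg.pow hg₀ m₀)) (mul_ne_zero (pow_ne_zero _ hne) (pow_ne_zero _ hg₀ne))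
    hfin ?_
  intro i
  have key : ∀ o : Option (Fin c), (o.elim (g ^ m₀) (fun i => f i ^ m) : E) *
      (f₀ ^ m * g₀ ^ m₀) ∈ WReg k z (m₀ * m + m * m₀) := by
    intro o
    cases o with
    | none =>
      have h1 : g ^ m₀ * (f₀ ^ m * g₀ ^ m₀) = f₀ ^ m * (g * g₀) ^ m₀ := by
        rw [mul_pow]
        ring
      show g ^ m₀ * (f₀ ^ m * g₀ ^ m₀) ∈ _
      rw [h1]
      exact wreg_mul (WReg.pow hf₀ m) (WReg.pow hg m₀)
    | some i =>
      have h1 : f i ^ m * (f₀ ^ m * g₀ ^ m₀) = (f i * f₀) ^ m * g₀ ^ m₀ := by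
        rw [mul_pow]
        ring
      show f i ^ m * (f₀ ^ m * g₀ ^ m₀) ∈ _
      rw [h1]
      exact wreg_mul (WReg.pow (hff i) m) (WReg.pow hg₀ m₀)
  exact key _

end Pf72953.Red
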