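import Mathlib
import Pool.Agent.Lib.Pf72953m.Over
import Pool.Agent.Lib.Pf72953f.RelW

/-!
MODULE Pf72953r.RelBack: a regular form of `E/Z` times `(dx)^m`, `x` a transcendence basis of `Z/k`, is regular at all divisorial valuations of
`E/k` which are trivial on `Z` (converse of `Fib.WReg_rel` at such a valuation).

PROOF.  `v` is divisorial over `Z` (`Pf72953.Mov.IsDivisorial.over`).  Take an adapted system `(c₁, t)` over `Z` with `t` a uniformizer
(`IsDivisorial.exists_adapted`); it is a regular basis over `Z` (`Adapted.regBasis`), so `v f * v (jac_Z c₁ σ) ^ m ≤ 1`;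
`Sum.elim x c₁` is adapted over `k` (`Fib.Adapted_rel`), hence a regular basis over `k`, and
`jac_k (x ⊕ c₁) (x ⊕ σ) = jac_Z c₁ σ` (`Fib.jac_rel`, `jac_self`).  For the given regular basis `c` over `k`:
`jac c (x ⊕ σ) = jac c (x ⊕ c₁) * jac (x ⊕ c₁) (x ⊕ σ)` (`jac_chain`) and `v (jac c (x ⊕ c₁)) ≤ 1` (`RegBasis.jac_le`).
Exactly as in the proof of `Fib.WReg_rel`.
-/

set_option autoImplicit false

open scoped WithZero
open Pf72953

namespace Pf72953.Red

theorem rel_back {k Z E ιZ ι : Type*} [Field k] [CharZero k] [Field Z] [CharZero Z] [Field E]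
    [Algebra k Z] [Algebra k E] [Algebra Z E] [IsScalarTower k Z E] [Fintype ιZ] [Fintype ι]
    [DecidableEq ιZ] [DecidableEq ι] [Algebra.EssFiniteType k E] {x : ιZ → Z}
    (hx : IsTranscendenceBasis k x) {σ : ι → E} (hσ : IsTranscendenceBasis Z σ) {m : ℕ} {f : E}
    (hf : f ∈ WReg Z σ m) {v : Valuation E ℤᵐ⁰} (hv : IsDivisorial k E v)
    (htriv : ∀ a : Z, a ≠ 0 → v (algebraMap Z E a) = 1) {c : ιZ ⊕ ι → E} (hc : RegBasis k v c) :
    v f * v (jac hc.tb (Sum.elim (fun a => algebraMap Z E (x a)) σ)) ^ m ≤ 1 := by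
  have : Algebra.EssFiniteType Z E := Algebra.EssFiniteType.of_comp k Z E
  have hvZ : IsDivisorial Z E v := Pf72953.Mov.IsDivisorial.over hv htriv
  obtain ⟨c₁, t, ht, hc₁⟩ := hvZ.exists_adapted (ι := ι) (card_eq_of_isTranscendenceBasis hσ)
  have hreg₁ := hc₁.regBasis (card_eq_of_isTranscendenceBasis hσ) ht
  have hck := Pf72953.Fib.Adapted_rel (k := k) hx.1 hc₁
  have hregk := hck.regBasis
    (card_eq_of_isTranscendenceBasis (Pf72953.Fib.tb_rel hx hσ)) ht
  have h1 := hf v hvZ _ hreg₁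
  rw [jac_chain hregk.tb hc.tb (Sum.elim (fun a => algebraMap Z E (x a)) σ),
    Pf72953.Fib.jac_rel hx hreg₁.tb hregk.tb x σ, jac_self, map_one, one_mul, map_mul, mul_pow,
    ← mul_assoc, mul_comm (v f), mul_assoc]
  refine mul_le_one' (pow_le_one' ?_ m) h1
  exact hc.jac_le _ hck.le_one

end Pf72953.Red
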