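import Mathlib
import Pool.Agent.Lib.Pf72953.Core

/-!
MODULE Pf72953r.Vert: for a divisorial valuation `v` which is not trivial on `k(f_1, ..., f_c)` (`f_i` ratios of regular forms `f_i f₀`, `f₀`) there
is a regular pluricanonical form, a polynomial in these forms, which vanishes at `v`.

PROOF.  `v a < 1` for some `a = p(f)/q(f)`, `a ≠ 0`, `p, q ∈ k[X_1, ..., X_c]` nonzero (invert `a` if necessary; elements of
`IntermediateField.adjoin k (Set.range f)` are quotients of elements of `Algebra.adjoin k (Set.range f)`,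
`IntermediateField.mem_adjoin_iff_div` or similar, and these are values of polynomials, `Algebra.adjoin_range_eq_range_aeval`).
Let `d ≥ 1` be at least the total degrees of `p` and `q` and `μ` the maximum of `1` and the `v (f i)`.
`P := p(f) * f₀ ^ d`.
* `P ≠ 0` (`f` is algebraically independent).
* `P ∈ WReg k z (m₀ * d)`: it is a `k`-linear combination of products `∏ f_i^{α_i} f₀^d = f₀^{d - |α|} ∏ (f_i f₀)^{α_i}`, `|α| ≤ d`
  (`WReg.add`, `WReg.smul`, `WReg.pow`, products; or directly: at a divisorial `w` with regular basis `c`, `N := w f₀ * w (jac)^m₀ ≤ 1`,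
  `w (f i) * N ≤ 1`, so `w (p(f)) ≤ M^d`, `M = max(1, w (f i))`, and `M * N ≤ 1`, hence `w P * w (jac)^(m₀ d) ≤ (M N)^d ≤ 1`).
* at `v`: `v (q(f)) ≤ μ^d`, so `v (p(f)) < v (q(f)) ≤ μ^d`, and with `N = v f₀ * v (jac hc.tb z)^m₀` (positive, as `f₀ ≠ 0` and
  `jac ≠ 0`, `jac_ne_zero`) `μ N ≤ 1`: `v P * v (jac)^(m₀ d) = v (p(f)) * N^d < μ^d N^d ≤ 1`.
-/

set_option autoImplicit false

open scoped WithZero
open Pf72953

namespace Pf72953.Red

section aux

variable {k E : Type*} [Field k] [Field E] [Algebra k E]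

/-- values of a polynomial of degree at most `d` -/
theorem vert_poly_le {v : Valuation E ℤᵐ⁰} (hv : ∀ a : k, a ≠ 0 → v (algebraMap k E a) = 1)
    {c : ℕ} {f : Fin c → E} {M : ℤᵐ⁰} (hM : 1 ≤ M) (hf : ∀ i, v (f i) ≤ M)
    (p : MvPolynomial (Fin c) k) {d : ℕ} (hd : p.totalDegree ≤ d) :
    v (MvPolynomial.aeval f p) ≤ M ^ d := by
  rw [MvPolynomial.aeval_def, MvPolynomial.eval₂_eq']
  refine v.map_sum_le fun s hs => ?_
  have h1 : v (algebraMap k E (p.coeff s)) ≤ 1 := by
    rcases eq_or_ne (p.coeff s) 0 with h | h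
    · rw [h, map_zero, map_zero]
      exact zero_le
    · exact (hv _ h).le
  have h2 : v (∏ i, f i ^ s i) ≤ M ^ d := by
    rw [map_prod]
    calc ∏ i, v (f i ^ s i) ≤ ∏ i, M ^ s i := by
          refine Finset.prod_le_prod' fun i _ => ?_
          rw [map_pow]
          exact pow_le_pow_left' (hf i) _
      _ = M ^ ∑ i, s i := Finset.prod_pow_eq_pow_sum _ _ _
      _ ≤ M ^ d := by
          refine pow_le_pow_right' hM ?_
          have h3 := MvPolynomial.le_totalDegree hs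
          have h4 : (s.sum fun _ e => e) = ∑ i, s i := Finsupp.sum_fintype _ _ (fun _ => rfl)
          omega
  rw [map_mul]
  calc _ ≤ 1 * M ^ d := mul_le_mul' h1 h2
    _ = _ := one_mul _

/-- the maximum of the values -/
theorem vert_max {c : ℕ} (g : Fin c → ℤᵐ⁰) {N : ℤᵐ⁰} (hN : N ≤ 1) (h : ∀ i, g i * N ≤ 1) :
    ∃ M : ℤᵐ⁰, 1 ≤ M ∧ (∀ i, g i ≤ M) ∧ M * N ≤ 1 := by
  classical
  set s : Finset ℤᵐ⁰ := insert 1 (Finset.univ.image g) with hs
  have hne : s.Nonempty := Finset.insert_nonempty _ _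
  refine ⟨s.max' hne, s.le_max' _ (Finset.mem_insert_self _ _), fun i => s.le_max' _ ?_, ?_⟩
  · exact Finset.mem_insert_of_mem (Finset.mem_image_of_mem _ (Finset.mem_univ _))
  · have hmem := s.max'_mem hne
    generalize s.max' hne = M at hmem
    rw [hs, Finset.mem_insert] at hmem
    rcases hmem with rfl | hmem
    · rwa [one_mul]
    · obtain ⟨i, _, rfl⟩ := Finset.mem_image.1 hmem
      exact h i

end aux

theorem exists_vanish {k E ι : Type*} [Field k] [CharZero k] [Field E] [Algebra k E] [Fintype ι]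
    [DecidableEq ι] {z : ι → E} (hz : IsTranscendenceBasis k z) {c m₀ : ℕ} {f₀ : E}
    (hf₀ : f₀ ∈ WReg k z m₀) (hne : f₀ ≠ 0) {f : Fin c → E} (hf : AlgebraicIndependent k f)
    (hff : ∀ i, f i * f₀ ∈ WReg k z m₀) {v : Valuation E ℤᵐ⁰} (hv : IsDivisorial k E v)
    (hnt : ∃ a ∈ IntermediateField.adjoin k (Set.range f), a ≠ 0 ∧ v a ≠ 1) :
    ∃ (d : ℕ) (P : E), 1 ≤ d ∧ P ≠ 0 ∧ P ∈ WReg k z (m₀ * d) ∧
      ∀ (c : ι → E) (hc : RegBasis k v c), v P * v (jac hc.tb z) ^ (m₀ * d) < 1 := by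
  classical
  -- the two polynomials
  obtain ⟨p, q, hp, hq, hlt⟩ : ∃ p q : MvPolynomial (Fin c) k, p ≠ 0 ∧ q ≠ 0 ∧
      v (MvPolynomial.aeval f p) < v (MvPolynomial.aeval f q) := by
    obtain ⟨a, ha, ha0, hav⟩ := hnt
    obtain ⟨p, q, hpq⟩ := (IntermediateField.mem_adjoin_range_iff k f a).1 ha
    have hp0 : MvPolynomial.aeval f p ≠ 0 := by
      intro h
      rw [h, zero_div] at hpq
      exact ha0 hpq
    have hq0 : MvPolynomial.aeval f q ≠ 0 := by
      intro h
      rw [h, div_zero] at hpq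
      exact ha0 hpq
    have hp : p ≠ 0 := by
      rintro rfl
      exact hp0 (map_zero _)
    have hq : q ≠ 0 := by
      rintro rfl
      exact hq0 (map_zero _)
    have hne' : v (MvPolynomial.aeval f p) ≠ v (MvPolynomial.aeval f q) := by
      intro h
      apply hav
      rw [hpq, map_div₀, h, div_self]
      exact (Valuation.ne_zero_iff _).2 hq0
    rcases lt_or_gt_of_ne hne' with h | h
    · exact ⟨p, q, hp, hq, h⟩
    · exact ⟨q, p, hq, hp, h⟩
  have hpf : MvPolynomial.aeval f p ≠ 0 := fun h => hp ((injective_iff_map_eq_zero _).1 hf p h)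
  set d := max 1 (max p.totalDegree q.totalDegree) with hd
  have hd1 : 1 ≤ d := le_max_left _ _
  have hdp : p.totalDegree ≤ d := (le_max_left _ _).trans (le_max_right _ _)
  have hdq : q.totalDegree ≤ d := (le_max_right _ _).trans (le_max_right _ _)
  refine ⟨d, MvPolynomial.aeval f p * f₀ ^ d, hd1, mul_ne_zero hpf (pow_ne_zero _ hne), ?_, ?_⟩
  · intro w hw b hb
    have h0 := hf₀ w hw b hb
    obtain ⟨M, hM1, hMf, hMN⟩ := vert_max (fun i => w (f i)) h0 (fun i => by
      have h1 := hff i w hw b hb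
      rw [map_mul, mul_assoc] at h1
      exact h1)
    have h2 := vert_poly_le hw.const hM1 hMf p hdp
    calc w (MvPolynomial.aeval f p * f₀ ^ d) * w (jac hb.tb z) ^ (m₀ * d)
        = w (MvPolynomial.aeval f p) * (w f₀ * w (jac hb.tb z) ^ m₀) ^ d := by
          rw [map_mul, map_pow, mul_pow, pow_mul, mul_assoc]
      _ ≤ M ^ d * (w f₀ * w (jac hb.tb z) ^ m₀) ^ d := mul_le_mul' h2 le_rfl
      _ = (M * (w f₀ * w (jac hb.tb z) ^ m₀)) ^ d := (mul_pow _ _ _).symm
      _ ≤ 1 := pow_le_one' hMN d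
  · intro b hb
    have h0 := hf₀ v hv b hb
    obtain ⟨M, hM1, hMf, hMN⟩ := vert_max (fun i => v (f i)) h0 (fun i => by
      have h1 := hff i v hv b hb
      rw [map_mul, mul_assoc] at h1
      exact h1)
    have h2 := vert_poly_le hv.const hM1 hMf q hdq
    have hN : v f₀ * v (jac hb.tb z) ^ m₀ ≠ 0 := by
      refine mul_ne_zero ((Valuation.ne_zero_iff _).2 hne) (pow_ne_zero _ ?_)
      exact (Valuation.ne_zero_iff _).2 (jac_ne_zero hz hb.tb)
    calc v (MvPolynomial.aeval f p * f₀ ^ d) * v (jac hb.tb z) ^ (m₀ * d)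
        = v (MvPolynomial.aeval f p) * (v f₀ * v (jac hb.tb z) ^ m₀) ^ d := by
          rw [map_mul, map_pow, mul_pow, pow_mul, mul_assoc]
      _ < v (MvPolynomial.aeval f q) * (v f₀ * v (jac hb.tb z) ^ m₀) ^ d :=
          mul_lt_mul_of_pos_right hlt (zero_lt_iff.2 (pow_ne_zero _ hN))
      _ ≤ M ^ d * (v f₀ * v (jac hb.tb z) ^ m₀) ^ d := mul_le_mul' h2 le_rfl
      _ = (M * (v f₀ * v (jac hb.tb z) ^ m₀)) ^ d := (mul_pow _ _ _).symm
      _ ≤ 1 := pow_le_one' hMN d

end Pf72953.Red
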