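import Mathlib
import Pool.Agent.Lib.Pf72953.Core
import Pool.Agent.Lib.Pf72953f.RelW
import Pool.Agent.Lib.Pf72953f.KodZero
import Pool.Agent.Lib.Pf72953r.Ratio
import Pool.Agent.Lib.Pf72953r.Vert
import Pool.Agent.Lib.Pf72953r.RelBack
import Pool.Agent.Lib.Pf72953r.Asm

/-!
MODULE Pf72953r.Iit: the Iitaka fibration. If `E/k` has a smooth complete model and `κ(E/k) = c ≥ 0` there is a field
`k ⊆ Z ⊆ E`, algebraically closed in `E`, with `trdeg(Z/k) = c` and `κ(E/Z) = 0`.

PROOF.  `KodairaGE k E c` holds and `KodairaGE k E (c + 1)` does not (`kodairaDim_eq`).  Take `m₀ ≥ 1`, `ω₀ ∈ pluricanonical k E m₀`,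
`ω₀ ≠ 0`, `f : Fin c → E` algebraically independent with `f i • ω₀` pluricanonical.  `F := IntermediateField.adjoin k (Set.range f)`,
`Z := (algebraicClosure F E).restrictScalars k`, i.e. the elements of `E` algebraic over `F` (any construction); it is
algebraically closed in `E`, and `x i := f i ∈ Z` is a transcendence basis of `Z/k`: `dimension k Z = c`
(`card_eq_of_isTranscendenceBasis`).
Let `σ : Fin (dimension Z E) → E` be a transcendence basis of `E/Z` (`exists_tb Z E`; `Algebra.EssFiniteType Z E` by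
`Algebra.EssFiniteType.of_comp k Z E`), `z₁ := Sum.elim x σ` (transcendence basis of `E/k`, `Fib.tb_rel`), reindexed by an
equivalence `e` to `z : Fin (dimension k E) → E` (cardinalities: `card_eq_of_isTranscendenceBasis`).
`f₀ := coef hz m₀ ω₀`; `f₀, f i * f₀ ∈ WReg k z m₀`, `f₀ ≠ 0` (`mem_pluricanonical_iff`, as in `KodairaGE.exists_coord`).
`κ(E/Z) ≥ 0`: `f₀ ∈ WReg Z σ m₀` (`WReg.reindex`, `Fib.WReg_rel`), `KodairaGE.of_coord` with `c = 0`.
Not `KodairaGE Z E 1`: otherwise `KodairaGE.exists_coord` gives `N ≥ 1`, `θ₀ ≠ 0`, `θ₀, g θ₀ ∈ WReg Z σ N` with `g` transcendental over `Z`.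
`T := {v | ∃ a : Z, a ≠ 0 ∧ v a ≠ 1}`.  `hT` of `exists_mult`: `v ∈ T` divisorial is not trivial on `F` (`Z/F` is algebraic:
`val_eq_one_of_isIntegral`), apply `exists_vanish`.  `hΘ` of `exists_mult` for `Θ = θ₀` and `Θ = g θ₀`: `rel_back` after
reindexing (`RegBasis.reindex`, `jac_reindex`).  So there are nonzero `P ∈ WReg k z d`, `P' ∈ WReg k z d'` with
`P θ₀ ∈ WReg k z (d + N)`, `P' g θ₀ ∈ WReg k z (d' + N)`; then `g₀ := P P' θ₀` and `g g₀` are in `WReg k z (d + d' + N)` (products), and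
`ratio_algebraic` shows `g` algebraic over `F`, so `g ∈ Z`: contradiction.
Conclude by `Fib.eq_zero` (Pf72953f.KodZero).
-/

set_option autoImplicit false

open scoped WithZero
open Pf72953 Pf72953.Mov

namespace Pf72953.Red

namespace IitAux

theorem mul_mem {k K ι : Type*} [Field k] [CharZero k] [Field K] [Algebra k K] [Fintype ι]
    [DecidableEq ι] {z : ι → K} {m m' : ℕ} {f g : K} (hf : f ∈ WReg k z m)
    (hg : g ∈ WReg k z m') : f * g ∈ WReg k z (m + m') := by
  intro w hw c hc
  rw [map_mul, pow_add, mul_mul_mul_comm]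
  exact mul_le_one' (hf w hw c hc) (hg w hw c hc)

/-- the elements algebraic over a subfield -/
theorem exists_closure {k E : Type*} [Field k] [Field E] [Algebra k E]
    (F : IntermediateField k E) :
    ∃ Z : IntermediateField k E, (∀ a : E, a ∈ Z ↔ IsAlgebraic F a) ∧
      ∀ a : E, IsAlgebraic Z a → a ∈ Z := by
  refine ⟨(algebraicClosure F E).restrictScalars k, fun a => ?_, fun a ha => ?_⟩
  · rw [IntermediateField.mem_restrictScalars]
    exact mem_algebraicClosure_iff
  · rw [IntermediateField.mem_restrictScalars]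
    have h1 : IsAlgebraic (algebraicClosure F E) a := ha
    have h2 : a ∈ algebraicClosure (algebraicClosure F E) E := mem_algebraicClosure_iff.mpr h1
    rw [algebraicClosure.algebraicClosure_eq_bot] at h2
    obtain ⟨b, hb⟩ := IntermediateField.mem_bot.mp h2
    rw [← hb]
    exact b.2

/-- a transcendence basis of the algebraic closure of `k(f)` -/
theorem exists_basis {k E : Type*} [Field k] [Field E] [Algebra k E] {c : ℕ} {f : Fin c → E}
    (hf : AlgebraicIndependent k f) (Z : IntermediateField k E)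
    (hZ : ∀ a : E, a ∈ Z ↔ IsAlgebraic (IntermediateField.adjoin k (Set.range f)) a) :
    ∃ x : Fin c → Z, IsTranscendenceBasis k x := by
  have hmem : ∀ i, f i ∈ Z := by
    intro i
    rw [hZ]
    have h1 : f i ∈ IntermediateField.adjoin k (Set.range f) :=
      IntermediateField.subset_adjoin k _ ⟨i, rfl⟩
    exact isAlgebraic_algebraMap (⟨f i, h1⟩ : IntermediateField.adjoin k (Set.range f))
  let x : Fin c → Z := fun i => ⟨f i, hmem i⟩
  have hind : AlgebraicIndependent k x := by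
    refine AlgebraicIndependent.of_comp Z.val ?_
    exact hf
  refine ⟨x, hind.isTranscendenceBasis_iff_isAlgebraic.mpr ⟨fun a => ?_⟩⟩
  have h1 : IsAlgebraic (IntermediateField.adjoin k (Set.range f)) (a : E) := (hZ a).mp a.2
  rw [IntermediateField.isAlgebraic_adjoin_iff] at h1
  have himg : (Algebra.adjoin k (Set.range x)).map Z.val = Algebra.adjoin k (Set.range f) := by
    rw [AlgHom.map_adjoin, ← Set.range_comp]
    rfl
  have hmem2 : ∀ b : Algebra.adjoin k (Set.range x), ((b : Z) : E) ∈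
      Algebra.adjoin k (Set.range f) := by
    intro b
    rw [← himg]
    exact ⟨b, b.2, rfl⟩
  let φ : Algebra.adjoin k (Set.range x) →+* Algebra.adjoin k (Set.range f) :=
    ((algebraMap Z E).comp (Algebra.adjoin k (Set.range x)).val.toRingHom).codRestrict
      (Algebra.adjoin k (Set.range f)).toSubring hmem2
  refine IsAlgebraic.of_ringHom_of_comp_eq (S := Algebra.adjoin k (Set.range f)) (B := E) φ
    (algebraMap Z E) h1 ?_ (algebraMap Z E).injective ?_
  · rintro ⟨b, hb⟩
    rw [← himg] at hb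
    obtain ⟨b', hb', hbb⟩ := hb
    exact ⟨⟨b', hb'⟩, Subtype.ext hbb⟩
  · ext b
    rfl

end IitAux

theorem exists_iitaka {k E : Type*} [Field k] [CharZero k] [Field E] [Algebra k E]
    [Algebra.EssFiniteType k E] (M : SmoothModel k E) {c : ℕ}
    (hκ : kodairaDim k E = ((c : ℕ∞) : WithBot ℕ∞)) :
    ∃ Z : IntermediateField k E, (∀ a : E, IsAlgebraic Z a → a ∈ Z) ∧ dimension k Z = c ∧
      kodairaDim Z E = 0 := by
  classical
  -- the forms
  have hGE : KodairaGE k E c := by
    rcases kodairaDim_eq (k := k) (K := E) with h | ⟨c', hc', h⟩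
    · rw [hκ] at h
      exact absurd h (by simp)
    · rw [hκ, WithBot.coe_inj] at h
      have h1 : c = c' := by exact_mod_cast h
      rwa [h1]
  have hmax : ¬ KodairaGE k E (c + 1) := by
    intro h
    have h1 := Fib.KodZeroAux.le_kodairaDim h
    rw [hκ, WithBot.coe_le_coe] at h1
    have h2 : c + 1 ≤ c := by exact_mod_cast h1
    omega
  obtain ⟨m₀, hm₀, ω₀, hω₀, hωne, f, hf, hfω⟩ := hGE
  -- the field
  obtain ⟨Z, hZ, hZcl⟩ := IitAux.exists_closure (IntermediateField.adjoin k (Set.range f))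
  obtain ⟨x, hx⟩ := IitAux.exists_basis hf Z hZ
  have hdimZ : dimension k Z = c := by
    rw [← card_eq_of_isTranscendenceBasis hx, Fintype.card_fin]
  refine ⟨Z, hZcl, hdimZ, ?_⟩
  have : CharZero Z := charZero_of_injective_algebraMap (algebraMap k Z).injective
  have : Algebra.EssFiniteType Z E := Algebra.EssFiniteType.of_comp k Z E
  obtain ⟨σ, hσ⟩ := exists_tb Z E
  have hz₁ := Fib.tb_rel hx hσ
  have hcard : dimension k E = c + dimension Z E := by
    rw [← card_eq_of_isTranscendenceBasis hz₁]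
    simp
  let e : Fin (dimension k E) ≃ Fin c ⊕ Fin (dimension Z E) :=
    (finCongr hcard).trans finSumFinEquiv.symm
  obtain ⟨z₁, hz₁def⟩ : ∃ z₁ : Fin c ⊕ Fin (dimension Z E) → E,
      z₁ = Sum.elim (fun a => algebraMap Z E (x a)) σ := ⟨_, rfl⟩
  rw [← hz₁def] at hz₁
  obtain ⟨z, hzdef⟩ : ∃ z : Fin (dimension k E) → E, z = z₁ ∘ e := ⟨_, rfl⟩
  have hz : IsTranscendenceBasis k z := by
    rw [hzdef]
    exact (isTranscendenceBasis_equiv e).mpr hz₁
  have hze : z ∘ e.symm = z₁ := by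
    rw [hzdef]
    funext i
    simp
  obtain ⟨f₀, hf₀def⟩ : ∃ f₀ : E, f₀ = coef hz m₀ ω₀ := ⟨_, rfl⟩
  have hf₀ : f₀ ∈ WReg k z m₀ := by
    rw [hf₀def]
    exact (mem_pluricanonical_iff hz m₀ ω₀).mp hω₀
  have hne : f₀ ≠ 0 := by
    intro h0
    apply hωne
    rw [eq_coef_smul hz m₀ ω₀, ← hf₀def, h0, zero_smul]
  have hff : ∀ i, f i * f₀ ∈ WReg k z m₀ := by
    intro i
    have := (mem_pluricanonical_iff hz m₀ _).mp (hfω i)
    rwa [map_smul, smul_eq_mul, ← hf₀def] at this
  -- down to `Z`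
  have hf₀Z : f₀ ∈ WReg Z σ m₀ := by
    have h1 := WReg.reindex hf₀ e.symm
    rw [hze, hz₁def] at h1
    exact Fib.WReg_rel hx hσ h1
  refine Fib.KodZeroAux.eq_zero ?_ ?_
  · exact KodairaGE.of_coord hσ hm₀ hf₀Z hne (f := fun a : Fin 0 => a.elim0)
      (algebraicIndependent_empty_type_iff.mpr (algebraMap Z E).injective) fun a => a.elim0
  · intro h
    obtain ⟨N, hN, θ₀, hθ₀, hθne, g, hg, hgθ⟩ := h.exists_coord hσ
    let T : Set (Valuation E ℤᵐ⁰) := {v | ∃ a : Z, a ≠ 0 ∧ v (algebraMap Z E a) ≠ 1}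
    have hT : ∀ v ∈ T, IsDivisorial k E v → ∃ (d : ℕ) (P : E), P ≠ 0 ∧ P ∈ WReg k z d ∧
        ∀ (c : Fin (dimension k E) → E) (hc : RegBasis k v c),
          v P * v (jac hc.tb z) ^ d < 1 := by
      rintro v ⟨a, ha0, hav⟩ hv
      have hnt : ∃ a ∈ IntermediateField.adjoin k (Set.range f), a ≠ 0 ∧ v a ≠ 1 := by
        by_contra hcon
        push Not at hcon
        apply hav
        have halg : IsAlgebraic (IntermediateField.adjoin k (Set.range f)) (a : E) :=
          (hZ a).mp a.2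
        have hane : (a : E) ≠ 0 := by
          intro h0
          exact ha0 (Subtype.ext h0)
        exact val_eq_one_of_isIntegral (B := IntermediateField.adjoin k (Set.range f))
          (fun b hb => hcon b b.2 (fun h0 => hb (Subtype.ext h0))) hane
          (isAlgebraic_iff_isIntegral.mp halg)
      obtain ⟨d, P, -, hP, hPW, hlt⟩ := exists_vanish hz hf₀ hne hf hff hv hnt
      exact ⟨m₀ * d, P, hP, hPW, hlt⟩
    have hΘ : ∀ {Θ : E}, Θ ∈ WReg Z σ N → ∀ v : Valuation E ℤᵐ⁰, v ∉ T → IsDivisorial k E v →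
        ∀ (c : Fin (dimension k E) → E) (hc : RegBasis k v c),
          v Θ * v (jac hc.tb z) ^ N ≤ 1 := by
      intro Θ hΘ v hvT hv c hc
      have htriv : ∀ a : Z, a ≠ 0 → v (algebraMap Z E a) = 1 := by
        intro a ha
        by_contra hne1
        exact hvT ⟨a, ha, hne1⟩
      have hc' : RegBasis k v (c ∘ e.symm) := hc.reindex e.symm
      have h1 := rel_back hx hσ hΘ hv htriv hc'
      have h2 := jac_reindex e.symm hc.tb hc'.tb z
      rw [hze, hz₁def] at h2
      rwa [h2] at h1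
    obtain ⟨d, P, hP, hPW, hPθ⟩ := exists_mult M hz T hT (hΘ hθ₀)
    obtain ⟨d', P', hP', hPW', hPθ'⟩ := exists_mult M hz T hT (hΘ (hgθ 0))
    have hg₀ : P * P' * θ₀ ∈ WReg k z (d + (d' + N)) := by
      have h1 := IitAux.mul_mem hPW' hPθ
      have h2 : P' * (P * θ₀) = P * P' * θ₀ := by ring
      have h3 : d' + (d + N) = d + (d' + N) := by omega
      rwa [h2, h3] at h1
    have hgg₀ : g 0 * (P * P' * θ₀) ∈ WReg k z (d + (d' + N)) := by
      have h1 := IitAux.mul_mem hPW hPθ'
      have h2 : P * (P' * (g 0 * θ₀)) = g 0 * (P * P' * θ₀) := by ring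
      rwa [h2] at h1
    have hg₀ne : P * P' * θ₀ ≠ 0 := mul_ne_zero (mul_ne_zero hP hP') hθne
    have halg := ratio_algebraic hz hm₀ hf₀ hne hf hff hmax (m := d + (d' + N)) (by omega)
      hg₀ hg₀ne hgg₀
    have hmem : g 0 ∈ Z := (hZ _).mpr halg
    have htr : Transcendental Z (g 0) := hg.transcendental 0
    exact htr (isAlgebraic_algebraMap (⟨g 0, hmem⟩ : Z))

end Pf72953.Red
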