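import Mathlib
import Pool.Agent.Lib.Pf72953r.FDefs
import Pool.Agent.Lib.Pf72953r.DiagLib
import Pool.Agent.Lib.Pf72953r.Iit
import Pool.Agent.Lib.Pf72953r.Comp
import Pool.Agent.Lib.Pf72953f.Res

/-!
The reduction of Iitaka's conjecture to varieties of Kodaira dimension at most zero.
-/

set_option autoImplicit false
set_option linter.style.haveILetI false

open scoped WithZero
open Pf72953 Pf72953.Fib Pf72953.Fib.ResAux Pf72953.Mov

namespace Pf72953.Red

universe u

section

variable {k E : Type u} [Field k] [CharZero k] [Field E] [Algebra k E] [Algebra.EssFiniteType k E]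

/-- the reduction to the fibres of a fibration for which the Kodaira dimension is additive -/
theorem reduction (Z : IntermediateField k E) (B : Type u) [Field B] [Algebra k B] [Algebra B E]
    [IsScalarTower k B E]
    (hZ : ((dimension k Z : ℕ∞) : WithBot ℕ∞) + kodairaDim Z E ≤ kodairaDim k E)
    (h : kodairaDim Z (comp B Z) + kodairaDim (comp B Z) E ≤ kodairaDim Z E) :
    kodairaDim k B + kodairaDim B E ≤ kodairaDim k E :=
  (double_comp k B E Z).trans ((add_le_add_right h _).trans hZ)

theorem closedIn_comp (B : Type u) [Field B] [Algebra B E] (Z : IntermediateField k E) :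
    ClosedIn (comp B Z) E := fun a ha => ⟨⟨a, comp_closed B Z a ha⟩, rfl⟩

/-- the dimensions of the base and of the fibres do not grow -/
theorem dim_comp (Z : IntermediateField k E) (B : Type u) [Field B] [Algebra k B] [Algebra B E]
    [IsScalarTower k B E] :
    dimension Z (comp B Z) ≤ dimension k B ∧ dimension (comp B Z) E ≤ dimension B E := by
  letI algBW : Algebra B (comp B Z) :=
    ((algebraMap B E).codRestrict (comp B Z).toSubring (fun b => CompAux.map_mem Z b)).toAlgebra
  have hB : ∀ b : B, ((algebraMap B (comp B Z) b : comp B Z) : E) = algebraMap B E b :=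
    fun _ => rfl
  haveI : IsScalarTower B (comp B Z) E := IsScalarTower.of_algebraMap_eq fun _ => rfl
  haveI : IsScalarTower k Z (comp B Z) := IsScalarTower.of_algebraMap_eq fun _ => rfl
  haveI : IsScalarTower k (comp B Z) E := IsScalarTower.of_algebraMap_eq fun _ => rfl
  haveI : IsScalarTower k B (comp B Z) := IsScalarTower.of_algebraMap_eq fun c =>
    (algebraMap (comp B Z) E).injective (IsScalarTower.algebraMap_apply k B E c)
  haveI : Algebra.EssFiniteType k (comp B Z) := essFiniteType_sub k (comp B Z) E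
  haveI : Algebra.EssFiniteType k B := essFiniteType_sub k B E
  haveI : Algebra.EssFiniteType B E := Algebra.EssFiniteType.of_comp k B E
  haveI : Algebra.EssFiniteType k Z := essFiniteType_sub k Z E
  obtain ⟨κ, hκd, hκ⟩ := exists_const (k := k) (B := B) (Z := Z) (W := comp B Z)
    (CompAux.halg Z hB)
  obtain ⟨x, hx⟩ := exists_tb k B
  haveI : Algebra.EssFiniteType κ (comp B Z) := Algebra.EssFiniteType.of_comp k κ (comp B Z)
  have h1 : dimension κ (comp B Z) = dimension k B := by
    rw [← card_eq_of_isTranscendenceBasis (hκ x hx), card_eq_of_isTranscendenceBasis hx]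
  have h2 := dim_add κ Z (comp B Z)
  have h3 := dim_add B (comp B Z) E
  omega

theorem of_iitakaZero {b d n : ℕ} (hN : IitakaZero k b d n) (Z : IntermediateField k E)
    (hcl : ∀ a : E, IsAlgebraic Z a → a ∈ Z) (hdim : dimension Z E ≤ n)
    (hZ : ((dimension k Z : ℕ∞) : WithBot ℕ∞) = kodairaDim k E) (h0 : kodairaDim Z E = 0)
    (B : Type u) [Field B] [Algebra k B] [Algebra B E] [IsScalarTower k B E]
    (hb : dimension k B ≤ b) (hd : dimension B E ≤ d) :
    kodairaDim k B + kodairaDim B E ≤ kodairaDim k E := by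
  haveI : Algebra.EssFiniteType k Z := essFiniteType_sub k Z E
  haveI : Algebra.EssFiniteType Z E := Algebra.EssFiniteType.of_comp k Z E
  refine reduction Z B (by rw [h0, add_zero, hZ]) ?_
  have h1 := dim_comp Z B
  exact hN Z (comp B Z) E (fun a ha => ⟨⟨a, hcl a ha⟩, rfl⟩) (closedIn_comp B Z)
    ⟨h1.1.trans hb, h1.2.trans hd, hdim⟩ h0

/-- the Iitaka field -/
theorem exists_iitaka' (M : SmoothModel k E) (hκ : kodairaDim k E ≠ ⊥) :
    ∃ Z : IntermediateField k E, (∀ a : E, IsAlgebraic Z a → a ∈ Z) ∧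
      ((dimension k Z : ℕ∞) : WithBot ℕ∞) = kodairaDim k E ∧ kodairaDim Z E = 0 := by
  rcases kodairaDim_eq (k := k) (K := E) with h | ⟨c, -, h⟩
  · exact absurd h hκ
  · obtain ⟨Z, h1, h2, h3⟩ := exists_iitaka M h
    exact ⟨Z, h1, by rw [h2, h], h3⟩

theorem of_kappa {b d N : ℕ} (hN : IitakaZero k b d N) (M : SmoothModel k E)
    (hE : ((dimension k E : ℕ∞) : WithBot ℕ∞) ≤ kodairaDim k E + ((N : ℕ∞) : WithBot ℕ∞))
    (B : Type u) [Field B] [Algebra k B] [Algebra B E] [IsScalarTower k B E]
    (hb : dimension k B ≤ b) (hd : dimension B E ≤ d) :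
    kodairaDim k B + kodairaDim B E ≤ kodairaDim k E := by
  have hκ : kodairaDim k E ≠ ⊥ := by
    intro h
    rw [h, WithBot.bot_add] at hE
    exact absurd (le_bot_iff.mp hE) (WithBot.coe_ne_bot)
  obtain ⟨Z, h1, h2, h3⟩ := exists_iitaka' M hκ
  refine of_iitakaZero hN Z h1 ?_ h2 h3 B hb hd
  have hd := dim_add k Z E
  rw [← h2] at hE
  have h4 : dimension k E ≤ dimension k Z + N := by
    have h5 : (((dimension k E : ℕ) : ℕ∞) : WithBot ℕ∞) ≤
        (((dimension k Z + N : ℕ) : ℕ∞) : WithBot ℕ∞) := by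
      push_cast
      exact hE
    exact_mod_cast h5
  omega

end

theorem eq_zero_of_le {K G : Type u} [Field K] [Field G] [Algebra K G] [FinTrdeg K G]
    (h : kodairaDim K G ≠ ⊥) (h0 : kodairaDim K G ≤ 0) : kodairaDim K G = 0 := by
  rcases kodairaDim_eq (k := K) (K := G) with h1 | ⟨c, -, h1⟩
  · exact absurd h1 h
  · rw [h1] at h0 ⊢
    have : c = 0 := by
      have h3 : (((c : ℕ) : ℕ∞) : WithBot ℕ∞) ≤ (((0 : ℕ) : ℕ∞) : WithBot ℕ∞) := h0
      have h4 : c ≤ 0 := by exact_mod_cast h3
      omega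
    rw [this]; rfl

/-- fibre powers: `κ_orb(B;E) ≤ κ(E)` for fibres of Kodaira dimension zero -/
theorem power_le {k B E : Type u} [Field k] [CharZero k] [Field B] [Field E] [Algebra k B]
    [Algebra k E] [Algebra B E] [IsScalarTower k B E] [Algebra.EssFiniteType k E]
    (hBE : ClosedIn B E) (hF : kodairaDim B E ≤ 0) (h : FibrePowerForm k B E) :
    kodairaDim k B ≤ orbKodairaDim k B E ∧ orbKodairaDim k B E ≤ kodairaDim k E := by
  haveI : Algebra.EssFiniteType k B := essFiniteType_sub k B E
  obtain ⟨r, L, _, _, _, _, i, hr, hi, hL⟩ := h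
  have h1 := main k B E L hBE hr i hi
  refine ⟨h1.1, (h1.2.2.2.2 hF).1 fun hbot => ?_⟩
  have h2 : (((0 : ℕ) : ℕ∞) : WithBot ℕ∞) ≤ twDim k B L (r - 1) := le_iSup₂_of_le 0 hL le_rfl
  rw [hbot] at h2
  exact absurd (le_bot_iff.mp h2) WithBot.coe_ne_bot

/-- nonvanishing for the fibre squares -/
theorem power_of_nonvan {k : Type u} [Field k] [CharZero k] {b d n : ℕ}
    (H : Nonvan k b (2 * d) (n + d)) : PowerNonvan k b d n := by
  intro K W G _ _ _ _ _ _ _ _ _ _ hKG hWG hd hF hW
  haveI : CharZero K := charZero_of_injective_algebraMap (algebraMap k K).injective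
  haveI : Algebra.EssFiniteType K W := essFiniteType_sub K W G
  haveI : Algebra.EssFiniteType W G := Algebra.EssFiniteType.of_comp K W G
  haveI : CharZero W := charZero_of_injective_algebraMap (algebraMap K W).injective
  obtain ⟨L, instL, instWL, i, hi⟩ := exists_fibrePower (B := W) (E := G) 2
  letI : Algebra K L := ((algebraMap W L).comp (algebraMap K W)).toAlgebra
  haveI : IsScalarTower K W L := IsScalarTower.of_algebraMap_eq fun _ => rfl
  haveI : Algebra.EssFiniteType W L := hi.essFiniteType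
  haveI : Algebra.EssFiniteType K L := Algebra.EssFiniteType.comp K W L
  have h1 : ClosedIn W L := IsFibrePower.closed hWG 2 hi
  have h2 : kodairaDim W L = 0 := hi.kodairaDim_zero hWG (by omega) hF
  have hKW : ClosedIn K W := by
    intro a ha
    obtain ⟨b, hb⟩ := hKG (algebraMap W G a) (ha.algebraMap)
    refine ⟨b, (algebraMap W G).injective ?_⟩
    rw [← hb, ← IsScalarTower.algebraMap_apply]
  have hKL : ClosedIn K L := by
    intro a ha
    obtain ⟨b, rfl⟩ := h1 a (ha.tower_top W)
    obtain ⟨c, rfl⟩ := hKW b ((isAlgebraic_algebraMap_iff (algebraMap W L).injective).mp ha)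
    exact ⟨c, IsScalarTower.algebraMap_apply _ _ _ _⟩
  have hdimL : DimLE K W L b (2 * d) (n + d) := by
    have e1 := dim_add K W L
    have e2 := dim_add K W G
    have e3 := hi.dim
    obtain ⟨f1, f2, f3⟩ := hd
    refine ⟨f1, ?_, ?_⟩ <;> omega
  have h6 : kodairaDim K L ≠ ⊥ := H K W L hKL h1 hdimL hW (by rw [h2]; simp)
  have h7 := (main K W G L hWG (le_refl 2) i hi).2.2.2.1
  refine ⟨2, L, instL, inferInstance, instWL, inferInstance, i, le_refl 2, hi, ?_⟩
  exact TwKodairaGE.zero fun h => h6 (le_bot_iff.mp (h ▸ h7))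

/-- Iitaka's inequality holds for `f : E → B` if `κ ≤ 0` for the generic fibre of `G → f(G)`, `G` the generic fibre of
the Iitaka fibration of `E`, and some fibre power of `G` over `f(G)` has a form -/
theorem iitaka_of_fibre {k E : Type u} [Field k] [CharZero k] [Field E] [Algebra k E]
    [Algebra.EssFiniteType k E] (Z : IntermediateField k E)
    (hZd : ((dimension k Z : ℕ∞) : WithBot ℕ∞) = kodairaDim k E) (hZ0 : kodairaDim Z E = 0)
    (B : Type u) [Field B] [Algebra k B] [Algebra B E] [IsScalarTower k B E]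
    (hF : kodairaDim (comp B Z) E ≤ 0) (h : FibrePowerForm Z (comp B Z) E) :
    kodairaDim k B + kodairaDim B E ≤ kodairaDim k E := by
  refine reduction Z B (by rw [hZ0, add_zero, hZd]) ?_
  haveI : Algebra.EssFiniteType Z E := Algebra.EssFiniteType.of_comp k Z E
  haveI : CharZero Z := charZero_of_injective_algebraMap (algebraMap k Z).injective
  obtain ⟨h1, h2⟩ := power_le (closedIn_comp B Z) hF h
  calc kodairaDim Z (comp B Z) + kodairaDim (comp B Z) E
      ≤ kodairaDim Z E + 0 := add_le_add (h1.trans h2) hF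
    _ = kodairaDim Z E := add_zero _

section parts

variable {k : Type u} [Field k] {b d n : ℕ}

theorem IitakaZero.ext {K : Type u} [Field K] [Algebra k K] [Algebra.EssFiniteType k K]
    (h : IitakaZero k b d n) : IitakaZero K b d n := by
  intro L W G _ _ _ _ _ _ _ _ _ _
  letI : Algebra k L := ((algebraMap K L).comp (algebraMap k K)).toAlgebra
  haveI : IsScalarTower k K L := IsScalarTower.of_algebraMap_eq fun _ => rfl
  haveI : Algebra.EssFiniteType k L := Algebra.EssFiniteType.comp k K L
  exact h L W G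

theorem zero_of_parts [CharZero k] (hNV : PowerNonvan k b d n) (h0 : FibreZero k b d n) :
    IitakaZero k b d n := by
  intro K W G _ _ _ _ _ _ _ _ _ _ hKG hWG hdim hG
  haveI : CharZero K := charZero_of_injective_algebraMap (algebraMap k K).injective
  unfold IitakaIneq
  by_cases hW : kodairaDim K W = ⊥
  · rw [hW, WithBot.bot_add]; exact bot_le
  by_cases hF' : kodairaDim W G = ⊥
  · rw [hF', WithBot.add_bot]; exact bot_le
  have hF : kodairaDim W G ≤ 0 := h0 K W G hKG hWG hdim hG hW
  haveI : Algebra.EssFiniteType W G := Algebra.EssFiniteType.of_comp K W G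
  obtain ⟨h1, h2⟩ := power_le hWG hF (hNV K W G hKG hWG hdim (eq_zero_of_le hF' hF) hW)
  calc kodairaDim K W + kodairaDim W G ≤ kodairaDim K G + 0 := add_le_add (h1.trans h2) hF
    _ = kodairaDim K G := add_zero _

theorem iitaka_of_zero_smooth [CharZero k] {B E : Type u} [Field B] [Field E]
    [Algebra k B] [Algebra k E] [Algebra B E] [IsScalarTower k B E] [Algebra.EssFiniteType k E]
    (hNV : kodairaDim k B ≠ ⊥ → kodairaDim B E ≠ ⊥ → kodairaDim k E ≠ ⊥)
    (h0 : IitakaZero k b d n) (M : SmoothModel k E) (hdim : DimLE k B E b d n) :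
    kodairaDim k B + kodairaDim B E ≤ kodairaDim k E := by
  by_cases hB : kodairaDim k B = ⊥
  · rw [hB, WithBot.bot_add]; exact bot_le
  by_cases hF : kodairaDim B E = ⊥
  · rw [hF, WithBot.add_bot]; exact bot_le
  obtain ⟨Z, hZc, hZd, hZ0⟩ := exists_iitaka' M (hNV hB hF)
  have hdZ : dimension Z E ≤ n := by
    have h1 := dim_add k Z E
    have h2 := hdim.2.2
    omega
  exact of_iitakaZero h0 Z hZc hdZ hZd hZ0 B hdim.1 hdim.2.1

theorem iitaka_of_zero [CharZero k] (hR : Resolution k)
    (hNV : Nonvan k b d n) (h0 : IitakaZero k b d n) : Iitaka k b d n := by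
  intro K B E _ _ _ _ _ _ _ _ _ _ hKE hBE hdim
  haveI : CharZero K := charZero_of_injective_algebraMap (algebraMap k K).injective
  obtain ⟨M⟩ := hR K E
  exact iitaka_of_zero_smooth (hNV K B E hKE hBE hdim) (h0.ext (K := K)) M hdim

theorem zero_of_iitaka (h : Iitaka k b d n) : IitakaZero k b d n :=
  fun K W G _ _ _ _ _ _ _ _ _ _ h1 h2 hd _ => h K W G h1 h2 hd

theorem nonvan_of_conj [CharZero k] (h : NonvanConj k n) : Nonvan k b d n := by
  intro K W G _ _ _ _ _ _ _ _ _ _ h1 h2 hd hW hG
  haveI : CharZero K := charZero_of_injective_algebraMap (algebraMap k K).injective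
  haveI : Algebra.EssFiniteType K W := essFiniteType_sub K W G
  exact h K G h1 hd.2.2 (not_uniruled hW hG)

theorem nonvan_of_iitaka (h : Iitaka k b d n) : Nonvan k b d n := by
  intro K W G _ _ _ _ _ _ _ _ _ _ h1 h2 hd hW hG hcon
  have := h K W G h1 h2 hd
  unfold IitakaIneq at this
  rw [hcon, le_bot_iff, WithBot.add_eq_bot] at this
  exact this.elim hW hG

theorem weak_iff : WeakIitaka k b d n ↔ Nonvan k b d n ∧ FibreZero k b d n := by
  constructor
  · intro h
    refine ⟨?_, ?_⟩
    · intro K W G _ _ _ _ _ _ _ _ _ _ h1 h2 hd hW hG hcon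
      have h3 := h K W G h1 h2 hd hW
      rw [hcon, min_le_iff] at h3
      rcases h3 with h3 | h3
      · exact hG (le_bot_iff.mp h3)
      · exact absurd (le_bot_iff.mp h3) WithBot.coe_ne_bot
    · intro K W G _ _ _ _ _ _ _ _ _ _ h1 h2 hd hG hW
      have h3 := h K W G h1 h2 hd hW
      rw [hG, min_le_iff] at h3
      rcases h3 with h3 | h3
      · exact h3
      · exact absurd h3 (not_le.mpr zero_lt_one)
  · intro h K W G _ _ _ _ _ _ _ _ _ _ h1 h2 hd hW
    by_cases hG : kodairaDim W G = ⊥
    · rw [hG]; exact (min_le_left _ _).trans bot_le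
    have hE := h.1 K W G h1 h2 hd hW hG
    rcases kodairaDim_eq (k := K) (K := G) with h3 | ⟨c, -, h3⟩
    · exact absurd h3 hE
    · rcases Nat.eq_zero_or_pos c with rfl | hc
      · have h4 : kodairaDim K G = 0 := h3
        rw [h4]
        exact (min_le_left _ _).trans (h.2 K W G h1 h2 hd h4 hW)
      · rw [h3]
        refine (min_le_right _ _).trans ?_
        have h5 : (((1 : ℕ) : ℕ∞) : WithBot ℕ∞) ≤ (((c : ℕ) : ℕ∞) : WithBot ℕ∞) := by
          exact_mod_cast hc
        exact h5

theorem WeakIitaka.mono {b' d' n' : ℕ} (hb : b' ≤ b) (hd : d' ≤ d) (hn : n' ≤ n)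
    (h : WeakIitaka k b d n) : WeakIitaka k b' d' n' := by
  intro K W G _ _ _ _ _ _ _ _ _ _ h1 h2 hl hW
  exact h K W G h1 h2 ⟨hl.1.trans hb, hl.2.1.trans hd, hl.2.2.trans hn⟩ hW

theorem weak_of_iitaka [CharZero k] (h : Iitaka k b d n) : WeakIitaka k b d n := by
  refine weak_iff.mpr ⟨nonvan_of_iitaka h, ?_⟩
  intro K W G _ _ _ _ _ _ _ _ _ _ h1 h2 hd hG hW
  haveI : CharZero K := charZero_of_injective_algebraMap (algebraMap k K).injective
  have h3 := h K W G h1 h2 hd
  unfold IitakaIneq at h3
  rw [hG] at h3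
  haveI : Algebra.EssFiniteType K W := essFiniteType_sub K W G
  have h4 : (0 : WithBot ℕ∞) ≤ kodairaDim K W := by
    rcases kodairaDim_eq (k := K) (K := W) with h5 | ⟨c, -, h5⟩
    · exact absurd h5 hW
    · rw [h5]
      have h6 : (((0 : ℕ) : ℕ∞) : WithBot ℕ∞) ≤ (((c : ℕ) : ℕ∞) : WithBot ℕ∞) := by
        exact_mod_cast Nat.zero_le c
      exact h6
  calc kodairaDim W G = 0 + kodairaDim W G := (zero_add _).symm
    _ ≤ kodairaDim K W + kodairaDim W G := add_le_add_left h4 _
    _ ≤ 0 := h3

theorem zero_of_weak [CharZero k] (h : WeakIitaka k b (2 * d) (n + d)) :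
    Nonvan k b d n ∧ IitakaZero k b d n :=
  have h1 : WeakIitaka k b d n := h.mono le_rfl (by omega) (by omega)
  ⟨(weak_iff.mp h1).1, zero_of_parts (power_of_nonvan (weak_iff.mp h).1) (weak_iff.mp h1).2⟩

end parts

end Pf72953.Red
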